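import Pool.Agent.H97.T6.Defs

/-!
# T7 row Atoms (MP_75f39d_co): an atom with a point `k` such that `hno` holds at its other points

This is the proof of `Pool.Agent.H97.T6.atoms_singleton` (see `Pool/Agent/H97/T6/Atoms.lean`, copy from it)
with partial members replaced by the members `Y` with `k ∉ Y` and `Y ∩ X0 ≠ ∅` (call them special).
Proof.  `X0` is an atom with at least two points, `k ∈ X0`, `hno` holds for all `i ∈ X0`, `i ≠ k`.
There is a special member (`hex`).  Call a special `Y` minimal if no special member is strictly inside `Y`.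
For a minimal special `Y` let `W Y` be the union of the members strictly inside `Y`.  Such members do not
contain `k`, so they miss `X0`; `W Y` misses `X0`, `W Y ∈ A` (`sup_mem`, `∅ ∈ A`), `W Y ⊂ Y`.
`W Y ≠ ∅`: let `i ∈ Y ∩ X0`, so `i ≠ k`.  If `W Y = ∅` then `∅` is the only member strictly inside `Y`; `Y` has a
point `j'' ≠ i`, since `{i}` is no member (`X0` is an atom and `X0 ≠ {i}`).  `Lg A ∅ (X0.erase k)`,
`Lg A ∅ (Y.erase j'')`, `k ∉ Y`: `hno i ∅ X0 Y k j''` gives False.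
Choose a minimal special `Y` with `(W Y).card` least, `W = W Y`; `u ∈ A`, `u ⊂ W` with `u.card` maximal; `j ∈ W \ u`;
`i ∈ Y ∩ X0` (`i ≠ k`, `i ∉ W`).  `Lg A u (Y.erase j)` as in T6.
`Lg A u ((u ∪ X0).erase k)`: let `Z ∈ A` be inside and not inside `u`.  Then `Z ∪ u ∈ A` does not contain `k`
(`u ⊆ W` misses `X0`) and meets `X0`, so it is special and contains a minimal special `Y2`; `W Y2` misses `X0`,
`W Y2 ⊆ Y2 ⊆ u ∪ X0`, so `W Y2 ⊆ u ⊂ W`: contradiction with the choice of `Y`.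
`j ∉ u ∪ X0`.  `hno i u Y (u ∪ X0) j k` gives False.
-/

set_option autoImplicit false

namespace Pool.Agent.H97.T7

open Finset Pool.Agent.H97.T6

variable {α : Type*} [DecidableEq α]

theorem no_atom {A : Finset (Finset α)} (hA : UC A) (h0 : ∅ ∈ A) {X0 : Finset α} (hX0 : X0 ∈ A)
    (h2 : 2 ≤ X0.card) (hmin : ∀ T ∈ A, T ⊆ X0 → T = ∅ ∨ T = X0) {k : α} (hk : k ∈ X0)
    (hex : ∃ Y ∈ A, k ∉ Y ∧ ∃ i ∈ X0, i ∈ Y)
    (hno : ∀ i ∈ X0, i ≠ k → ∀ (u X X' : Finset α) (j j' : α), X ∈ A → X' ∈ A →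
      Lg A u (X.erase j) → Lg A u (X'.erase j') → i ∉ u → i ∈ X → i ∈ X' → j ∈ X → j' ∈ X' →
      i ≠ j → i ≠ j' → j ∉ X' → False) : False := by
  classical
  -- special members
  let P : Finset α → Prop := fun Y => k ∉ Y ∧ ∃ a ∈ X0, a ∈ Y
  let W : Finset α → Finset α := fun Y => (A.filter fun Z => Z ⊂ Y).sup id
  let M : Finset (Finset α) := A.filter fun Y => P Y ∧ ∀ Z ∈ A, Z ⊂ Y → ¬ P Z
  have hminP : ∀ Y' ∈ A, P Y' → ∃ Y2 ∈ M, Y2 ⊆ Y' := by
    intro Y' hY' hPY'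
    obtain ⟨Y2, hY2, hmin2⟩ := exists_min_image (A.filter fun Y => P Y ∧ Y ⊆ Y') card
      ⟨Y', mem_filter.mpr ⟨hY', hPY', Subset.refl _⟩⟩
    obtain ⟨hY2A, hPY2, hY2Y'⟩ := mem_filter.mp hY2
    refine ⟨Y2, mem_filter.mpr ⟨hY2A, hPY2, ?_⟩, hY2Y'⟩
    intro Z hZ hZY hPZ
    have h1 := hmin2 Z (mem_filter.mpr ⟨hZ, hPZ, hZY.subset.trans hY2Y'⟩)
    have h2 := card_lt_card hZY
    omega
  have hmiss : ∀ Y ∈ M, ∀ Z ∈ A, Z ⊂ Y → ∀ a ∈ X0, a ∉ Z := by
    intro Y hY Z hZ hZY a ha haZ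
    obtain ⟨hYA, hPY, hYm⟩ := mem_filter.mp hY
    exact hYm Z hZ hZY ⟨fun h => hPY.1 (hZY.subset h), ⟨a, ha, haZ⟩⟩
  have hWmem : ∀ {Y : Finset α} {z : α}, z ∈ W Y ↔ ∃ Z ∈ A, Z ⊂ Y ∧ z ∈ Z := by
    intro Y z
    simp only [W, mem_sup, mem_filter, id]
    constructor
    · rintro ⟨V, ⟨h1, h2⟩, h3⟩
      exact ⟨V, h1, h2, h3⟩
    · rintro ⟨V, h1, h2, h3⟩
      exact ⟨V, ⟨h1, h2⟩, h3⟩
  have hWmiss : ∀ Y ∈ M, ∀ a ∈ X0, a ∉ W Y := by
    intro Y hY a ha haW
    obtain ⟨Z, hZ, hZY, haZ⟩ := hWmem.mp haW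
    exact hmiss Y hY Z hZ hZY a ha haZ
  have hWsub : ∀ Y : Finset α, W Y ⊆ Y := by
    intro Y z hz
    obtain ⟨Z, hZ, hZY, hzZ⟩ := hWmem.mp hz
    exact hZY.subset hzZ
  have hsubW : ∀ {Y Z : Finset α}, Z ∈ A → Z ⊂ Y → Z ⊆ W Y := by
    intro Y Z hZ hZY z hz
    exact hWmem.mpr ⟨Z, hZ, hZY, hz⟩
  have hWne : ∀ Y ∈ M, (W Y).Nonempty := by
    intro Y hY
    by_contra hemp
    rw [not_nonempty_iff_eq_empty] at hemp
    obtain ⟨hYA, ⟨hkY, ⟨a, ha, haY⟩⟩, hYm⟩ := mem_filter.mp hY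
    have hak : a ≠ k := fun h => hkY (h ▸ haY)
    have hns : ¬ Y ⊆ {a} := by
      intro h
      have h1 : Y ⊆ X0 := fun z hz => by
        rw [mem_singleton.mp (h hz)]; exact ha
      rcases hmin Y hYA h1 with h2 | h2
      · rw [h2] at haY; exact notMem_empty a haY
      · have h3 := card_le_card h
        rw [h2, card_singleton] at h3
        omega
    obtain ⟨j'', hj1, hj2⟩ := not_subset.mp hns
    have haj : a ≠ j'' := fun h => hj2 (mem_singleton.mpr h.symm)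
    have hL1 : Lg A ∅ (X0.erase k) := by
      refine ⟨h0, empty_subset _, ?_⟩
      intro Z hZ hZX
      rcases hmin Z hZ (hZX.trans (erase_subset _ _)) with h1 | h1
      · rw [h1]
      · exfalso
        have h2 : k ∈ Z := by rw [h1]; exact hk
        exact (mem_erase.mp (hZX h2)).1 rfl
    have hL2 : Lg A ∅ (Y.erase j'') := by
      refine ⟨h0, empty_subset _, ?_⟩
      intro Z hZ hZY
      have h1 : Z ⊂ Y := by
        refine (hZY.trans (erase_subset _ _)).ssubset_of_ne ?_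
        intro h
        have h2 : j'' ∈ Z := by rw [h]; exact hj1
        exact (mem_erase.mp (hZY h2)).1 rfl
      have h2 := hsubW hZ h1
      rw [hemp] at h2
      exact h2
    exact hno a ha hak ∅ X0 Y k j'' hX0 hYA hL1 hL2 (notMem_empty a) ha haY hk hj1 hak haj hkY
  have hMne : M.Nonempty := by
    obtain ⟨T, hT, hkT, i, hi, hiT⟩ := hex
    obtain ⟨Y2, hY2, _⟩ := hminP T hT ⟨hkT, i, hi, hiT⟩
    exact ⟨Y2, hY2⟩
  obtain ⟨Y, hYM, hYmin⟩ := exists_min_image M (fun Y => (W Y).card) hMne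
  obtain ⟨hYA, ⟨hkY, ⟨i, hiX, hiY⟩⟩, hYm⟩ := mem_filter.mp hYM
  have hik : i ≠ k := fun h => hkY (h ▸ hiY)
  obtain ⟨u, hu, humax⟩ := exists_max_image (A.filter fun Z => Z ⊂ W Y) card
    ⟨∅, mem_filter.mpr ⟨h0, empty_ssubset.mpr (hWne Y hYM)⟩⟩
  obtain ⟨huA, huW⟩ := mem_filter.mp hu
  have hueq : ∀ Z ∈ A, u ⊆ Z → Z ⊂ W Y → Z = u := by
    intro Z hZ huZ hZW
    exact (eq_of_subset_of_card_le huZ (humax Z (mem_filter.mpr ⟨hZ, hZW⟩))).symm
  obtain ⟨j, hjW, hju⟩ := exists_of_ssubset huW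
  have hiW : i ∉ W Y := hWmiss Y hYM i hiX
  have humiss : ∀ a ∈ X0, a ∉ u := fun a ha hau => hWmiss Y hYM a ha (huW.subset hau)
  have hjX : j ∉ X0 := fun h => hWmiss Y hYM j h hjW
  have hL1 : Lg A u (Y.erase j) := by
    refine ⟨huA, ?_, ?_⟩
    · intro z hz
      exact mem_erase.mpr ⟨fun h => hju (h ▸ hz), hWsub Y (huW.subset hz)⟩
    · intro Z hZ hZY
      have hjZ : j ∉ Z := fun h => (mem_erase.mp (hZY h)).1 rfl
      have hZY2 : Z ⊂ Y := by
        refine (hZY.trans (erase_subset _ _)).ssubset_of_ne ?_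
        intro h
        exact hjZ (h ▸ hWsub Y hjW)
      have h1 : Z ∪ u ⊂ W Y := by
        refine (union_subset (hsubW hZ hZY2) huW.subset).ssubset_of_ne ?_
        intro h
        have : j ∈ Z ∪ u := h ▸ hjW
        rcases mem_union.mp this with h2 | h2
        · exact hjZ h2
        · exact hju h2
      have h2 := hueq (Z ∪ u) (hA Z hZ u huA) subset_union_right h1
      intro z hz
      rw [← h2]
      exact mem_union_left _ hz
  have hL2 : Lg A u ((u ∪ X0).erase k) := by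
    refine ⟨huA, ?_, ?_⟩
    · intro z hz
      exact mem_erase.mpr ⟨fun h => humiss k hk (h ▸ hz), mem_union_left _ hz⟩
    · intro Z hZ hZY
      have hjZ : k ∉ Z := fun h => (mem_erase.mp (hZY h)).1 rfl
      by_contra hZu
      obtain ⟨z, hzZ, hzu⟩ := not_subset.mp hZu
      have hzX : z ∈ X0 := by
        rcases mem_union.mp (mem_erase.mp (hZY hzZ)).2 with h | h
        · exact (hzu h).elim
        · exact h
      have hkZu : k ∉ Z ∪ u := by
        intro h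
        rcases mem_union.mp h with h1 | h1
        · exact hjZ h1
        · exact humiss k hk h1
      have hsub : Z ∪ u ⊆ u ∪ X0 :=
        union_subset (hZY.trans (erase_subset _ _)) subset_union_left
      obtain ⟨Y2, hY2, hY2Y⟩ := hminP (Z ∪ u) (hA Z hZ u huA)
        ⟨hkZu, ⟨z, hzX, mem_union_left _ hzZ⟩⟩
      have h3 : W Y2 ⊆ u := by
        intro w hw
        rcases mem_union.mp (hsub (hY2Y (hWsub Y2 hw))) with h | h
        · exact h
        · exact (hWmiss Y2 hY2 w h hw).elim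
      have h4 := hYmin Y2 hY2
      have h5 := card_le_card h3
      have h6 := card_lt_card huW
      omega
  refine hno i hiX hik u Y (u ∪ X0) j k hYA (hA u huA X0 hX0) hL1 hL2 (humiss i hiX) hiY
    (mem_union_right _ hiX) (hWsub Y hjW) (mem_union_right _ hk) ?_ hik ?_
  · intro h
    exact hjX (h ▸ hiX)
  · intro h
    rcases mem_union.mp h with h1 | h1
    · exact hju h1
    · exact hjX h1

end Pool.Agent.H97.T7
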