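import Pool.Agent.H62.UC.To

/-!
# T7 row Bsum (MP_75f39d_co)

Proof of `half_pow_le`: `(1/2)^k ≤ 1/(k+1)` since `k + 1 ≤ 2^k`.
Proof of `bsum1`: as `bsum_w` in `Pool/Agent/H62/UC/To.lean` (copy it) with `(1/2)^kk` replaced by
`1/(kk + 1)`: with `K e = e.1.erase e.2 \ lg B (e.1.erase e.2)` and `P` the pairs `(T, j)`, `j ∈ S`, `j ∈ T ∈ B`,
`T - j ∉ B`, the left side is `∑ e ∈ P, ∑ i ∈ S with i ∈ K e, lam e.2 / (kk B e + 1)`, and the number of the `i`
is at most `|K e|`, which is `kk B e + 1` if `K e` is nonempty (and the inner sum is `0` otherwise).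
-/

set_option autoImplicit false

namespace Pool.Agent.H97.T7

open Finset Pool.Agent.H62.UC

variable {α : Type*} [DecidableEq α]

theorem half_pow_le (k : ℕ) : (1 / 2 : ℝ) ^ k ≤ 1 / ((k : ℝ) + 1) := by
  rw [one_div_pow]
  refine one_div_le_one_div_of_le (by positivity) ?_
  have h : k + 1 ≤ 2 ^ k := Nat.lt_two_pow_self
  exact_mod_cast h

theorem bsum1 (B : Finset (Finset α)) (S : Finset α) {lam : α → ℝ} (hlam : ∀ i ∈ S, 0 ≤ lam i) :
    ∑ i ∈ S, ∑ e ∈ Bp B S i, lam e.2 * (1 / ((kk B e : ℝ) + 1)) ≤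
      ∑ j ∈ S, lam j * ((Bd B j).card : ℝ) := by
  obtain ⟨P, hP⟩ : ∃ P, P = (B ×ˢ S).filter fun e => e.2 ∈ e.1 ∧ e.1.erase e.2 ∉ B := ⟨_, rfl⟩
  obtain ⟨K, hK⟩ : ∃ K : Finset α × α → Finset α,
    K = fun e => e.1.erase e.2 \ lg B (e.1.erase e.2) := ⟨_, rfl⟩
  have h1 : ∀ i, Bp B S i = P.filter fun e => i ∈ K e := by
    intro i
    rw [hP, hK]
    unfold Bp
    rw [filter_filter]
    refine filter_congr fun e _ => ?_
    tauto
  have hk : ∀ n : ℕ, (n : ℝ) * (1 / (((n - 1 : ℕ) : ℝ) + 1)) ≤ 1 := by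
    intro n
    rcases n with _ | n
    · simp
    · rw [Nat.add_sub_cancel, mul_one_div, div_le_one (by positivity)]
      push_cast
      exact le_rfl
  have h2 : ∀ i ∈ S, ∑ e ∈ Bp B S i, lam e.2 * (1 / ((kk B e : ℝ) + 1)) =
      ∑ e ∈ P, if i ∈ K e then lam e.2 * (1 / ((kk B e : ℝ) + 1)) else 0 := by
    intro i _
    rw [h1, sum_filter]
  rw [sum_congr rfl h2, sum_comm]
  have h3 : ∀ e ∈ P, (∑ i ∈ S, if i ∈ K e then lam e.2 * (1 / ((kk B e : ℝ) + 1)) else 0) ≤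
      lam e.2 := by
    intro e he
    rw [hP, mem_filter, mem_product] at he
    rw [← sum_filter, sum_const, nsmul_eq_mul]
    have h4 : (S.filter fun i => i ∈ K e).card ≤ (K e).card :=
      card_le_card fun i hi => (mem_filter.1 hi).2
    have h5 : kk B e = (K e).card - 1 := by
      rw [hK]
      rfl
    have h6 := hlam e.2 he.1.2
    have h7 : ((S.filter fun i => i ∈ K e).card : ℝ) * (1 / ((kk B e : ℝ) + 1)) ≤ 1 := by
      rw [h5]
      refine le_trans (mul_le_mul_of_nonneg_right (Nat.cast_le.2 h4) (by positivity)) (hk _)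
    calc ((S.filter fun i => i ∈ K e).card : ℝ) * (lam e.2 * (1 / ((kk B e : ℝ) + 1))) =
        lam e.2 * (((S.filter fun i => i ∈ K e).card : ℝ) * (1 / ((kk B e : ℝ) + 1))) := by ring
      _ ≤ lam e.2 * 1 := mul_le_mul_of_nonneg_left h7 h6
      _ = lam e.2 := mul_one _
  refine (sum_le_sum h3).trans (le_of_eq ?_)
  rw [hP, sum_filter, sum_product_right]
  refine sum_congr rfl fun j _ => ?_
  rw [← sum_filter]
  show ∑ _a ∈ Bd B j, lam j = _
  rw [sum_const, nsmul_eq_mul, mul_comm]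

end Pool.Agent.H97.T7
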