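import Pool.Agent.H97.T6.Main
import Pool.Agent.H62.UC.TDefs

/-!
# T7 (MP_75f39d_co): the partial zeta transform in any order, for a family `B` closed under union with the
members of `A` inside the ground set
-/

set_option autoImplicit false

namespace Pool.Agent.H97.T7

open Finset Pool.Agent.H62.UC
open Pool.Agent.H97.T6 (UC FF FF_skip FF_step FF_mid FF_mid0 mx_lg mx_eq card_le_of_fun)

variable {α : Type*} [DecidableEq α]

/-- The points processed before time `k`. -/
def Qt (S : Finset α) (τ : α → ℕ) (k : ℕ) : Finset α := S.filter fun x => τ x < k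

/-- The pairs of `Bp B S i` with a member below, whose point is the last one in its set. -/
def Bt (B : Finset (Finset α)) (S : Finset α) (τ : α → ℕ) (i : α) : Finset (Finset α × α) :=
  (Bp B S i).filter fun p => (∃ W ∈ B, W ⊆ p.1.erase p.2) ∧
    ∀ x ∈ p.1 \ lg B (p.1.erase p.2), τ x ≤ τ p.2

theorem lg_eq (B : Finset (Finset α)) (Z : Finset α) : lg B Z = T6.Mx B Z := rfl

theorem mem_Bt {B : Finset (Finset α)} {S : Finset α} {τ : α → ℕ} {i : α} {p : Finset α × α} :
    p ∈ Bt B S τ i ↔ p ∈ Bp B S i ∧ (∃ W ∈ B, W ⊆ p.1.erase p.2) ∧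
      ∀ x ∈ p.1 \ lg B (p.1.erase p.2), τ x ≤ τ p.2 := by
  rw [Bt, mem_filter]

/-- The flux of a pair. -/
def flt (B D : Finset (Finset α)) (c : Finset α → ℚ) (S : Finset α) (τ : α → ℕ)
    (p : Finset α × α) : ℚ :=
  FF D c (Qt S τ (τ p.2)) (lg B (p.1.erase p.2))

theorem FF_zero {B : Finset (Finset α)} (hB : UC B) {S : Finset α} (hBS : ∀ T ∈ B, T ⊆ S)
    {τ : α → ℕ} {i : α} (hi : i ∈ S) (hτi : τ i = 0) (hτ : Set.InjOn τ (S : Set α))
    {D : Finset (Finset α)} (hD : D ⊆ Ns B i) {c : Finset α → ℚ}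
    (hfl : ∀ p ∈ Bt B S τ i, flt B D c S τ p = 0) :
    ∀ k : ℕ, 1 ≤ k → ∀ X ∈ B, i ∈ X → FF D c (Qt S τ k) X = 0 := by
  have hDB : D ⊆ B := fun T hT => (mem_Ns.mp (hD hT)).1
  intro k hk
  induction k, hk using Nat.le_induction with
  | base =>
    intro X hX hiX
    refine sum_eq_zero fun T hT => ?_
    rw [if_neg, zero_mul]
    rintro ⟨h1, h2⟩
    have hT' := mem_Ns.mp (hD hT)
    apply hT'.2.2
    have : insert i T = X := by
      apply Subset.antisymm
      · exact insert_subset hiX h1
      · intro x hx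
        by_cases hxi : x = i
        · rw [hxi]; exact mem_insert_self _ _
        · refine mem_insert_of_mem (h2 (mem_sdiff.mpr ⟨hx, fun hq => hxi ?_⟩))
          rw [Qt, mem_filter] at hq
          exact hτ hq.1 hi (by omega)
    rw [this]
    exact hX
  | succ k hk ih =>
    intro X hX hiX
    by_cases hj : ∃ j ∈ S, τ j = k
    · obtain ⟨j, hjS, hjk⟩ := hj
      have hQ : Qt S τ (k + 1) = insert j (Qt S τ k) := by
        ext x
        rw [mem_insert, Qt, Qt, mem_filter, mem_filter]
        constructor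
        · rintro ⟨h1, h2⟩
          by_cases h3 : τ x < k
          · exact Or.inr ⟨h1, h3⟩
          · left
            exact hτ h1 hjS (by omega)
        · rintro (h1 | h1)
          · rw [h1]
            exact ⟨hjS, by omega⟩
          · exact ⟨h1.1, by omega⟩
      have hjQ : j ∉ Qt S τ k := by
        rw [Qt, mem_filter]
        rintro ⟨_, h⟩
        omega
      have hij : i ≠ j := by
        rintro rfl
        omega
      rw [hQ]
      by_cases hjX : j ∈ X
      · rw [FF_step hjX hjQ, ih X hX hiX, zero_add]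
        by_cases hu : ∃ u, T6.Lg B u (X.erase j) ∧ X \ u ⊆ insert j (Qt S τ k)
        · obtain ⟨u, hu, hXu⟩ := hu
          rw [FF_mid hDB hu hXu]
          by_cases hiu : i ∈ u
          · exact ih u hu.1 hiu
          · have hlu : lg B (X.erase j) = u := by rw [lg_eq]; exact mx_eq hu
            have hp : (X, j) ∈ Bt B S τ i := by
              rw [mem_Bt, mem_Bp]
              refine ⟨⟨⟨hX, hjS⟩, hjX, fun h => hiu ?_, mem_erase.mpr ⟨hij, hiX⟩, ?_⟩,
                ⟨u, hu.1, hu.2.1⟩, ?_⟩
              · exact hu.2.2 _ h subset_rfl (mem_erase.mpr ⟨hij, hiX⟩)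
              · show i ∉ lg B (X.erase j)
                rw [hlu]
                exact hiu
              · show ∀ x ∈ X \ lg B (X.erase j), τ x ≤ τ j
                rw [hlu, hjk]
                intro x hx
                have := hXu hx
                rw [← hQ, Qt, mem_filter] at this
                omega
            have h := hfl _ hp
            rw [flt] at h
            show FF D c (Qt S τ k) u = 0
            simp only [hlu, hjk] at h
            exact h
        · exact FF_mid0 hB hDB hu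
      · rw [FF_skip hjX]
        exact ih X hX hiX
    · have hQ : Qt S τ (k + 1) = Qt S τ k := by
        ext x
        rw [Qt, Qt, mem_filter, mem_filter]
        constructor
        · rintro ⟨h1, h2⟩
          refine ⟨h1, ?_⟩
          by_contra h3
          exact hj ⟨x, h1, by omega⟩
        · rintro ⟨h1, h2⟩
          exact ⟨h1, by omega⟩
      rw [hQ]
      exact ih X hX hiX

/-- Moebius step for a family closed under union with `M`. -/
theorem push_zero {B : Finset (Finset α)} {S : Finset α} {D : Finset (Finset α)}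
    (hD : D ⊆ B) {c : Finset α → ℚ} {M : Finset α} (hM : ∀ T ∈ B, T ∪ M ∈ B) (hMS : M ⊆ S)
    (h : ∀ X ∈ B, M ⊆ X → FF D c S X = 0) :
    ∀ n : ℕ, ∀ R ∈ B, M ⊆ R → R.card = n → ∑ T ∈ D with T ∪ M = R, c T = 0 := by
  intro n
  induction n using Nat.strong_induction_on with
  | _ n ih =>
    intro R hR hMR hn
    have h1 := h R hR hMR
    rw [FF] at h1
    simp only [ite_mul, one_mul, zero_mul] at h1
    rw [← sum_filter] at h1
    rw [← sum_fiberwise_of_maps_to (t := B.filter fun R' => M ⊆ R' ∧ R' ⊆ R)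
      (g := fun T => T ∪ M)] at h1
    · rw [sum_eq_single R] at h1
      · rw [← h1, filter_filter]
        refine sum_congr (filter_congr fun T hT => ?_) fun _ _ => rfl
        constructor
        · intro h2
          refine ⟨⟨?_, ?_⟩, h2⟩
          · rw [← h2]; exact subset_union_left
          · intro x hx
            rw [mem_sdiff, ← h2, mem_union] at hx
            rcases hx.1 with h3 | h3
            · exact h3
            · exact absurd (hMS h3) hx.2
        · exact fun h2 => h2.2
      · intro R' hR' hne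
        rw [mem_filter] at hR'
        by_cases hS : R \ S ⊆ R'
        · rw [filter_filter]
          rw [← ih R'.card ?_ R' hR'.1 hR'.2.1 rfl]
          · refine sum_congr (filter_congr fun T hT => ?_) fun _ _ => rfl
            constructor
            · exact fun h2 => h2.2
            · intro h2
              refine ⟨⟨?_, ?_⟩, h2⟩
              · refine Subset.trans ?_ hR'.2.2
                rw [← h2]; exact subset_union_left
              · intro x hx
                have h3 := hS hx
                rw [← h2, mem_union] at h3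
                rcases h3 with h3 | h3
                · exact h3
                · exact absurd (hMS h3) (mem_sdiff.mp hx).2
          · rw [← hn]
            exact card_lt_card (Finset.ssubset_iff_subset_ne.mpr ⟨hR'.2.2, hne⟩)
        · refine sum_eq_zero fun T hT => ?_
          exfalso
          rw [mem_filter, mem_filter] at hT
          apply hS
          intro x hx
          rw [← hT.2]
          exact mem_union_left _ (hT.1.2.2 hx)
      · intro h2
        exact absurd (mem_filter.mpr ⟨hR, hMR, subset_rfl⟩) h2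
    · intro T hT
      rw [mem_filter] at hT
      rw [mem_filter]
      exact ⟨hM _ (hD hT.1), subset_union_right, union_subset hT.2.1 hMR⟩

/-- Free sets for a family `B` closed under union with the members of `A` inside `S`. -/
def FreeIn (A : Finset (Finset α)) (S : Finset α) (i : α) (D : Finset (Finset α)) : Prop :=
  ∀ c : Finset α → ℚ, (∀ M ∈ A, i ∈ M → M ⊆ S → ∀ R, ∑ T ∈ D with T ∪ M = R, c T = 0) →
    ∀ T ∈ D, c T = 0

theorem coeff_zero {A B : Finset (Finset α)} {S : Finset α}
    (hAB : ∀ M ∈ A, M ⊆ S → ∀ T ∈ B, T ∪ M ∈ B) {i : α}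
    {D : Finset (Finset α)} (hD : D ⊆ B) (hP : FreeIn A S i D) {c : Finset α → ℚ}
    (h : ∀ X ∈ B, i ∈ X → FF D c S X = 0) : ∀ T ∈ D, c T = 0 := by
  refine hP c fun M hM hiM hMS R => ?_
  by_cases hR : R ∈ B ∧ M ⊆ R
  · exact push_zero hD (hAB M hM hMS) hMS (fun X hX hMX => h X hX (hMX hiM)) _ R hR.1 hR.2 rfl
  · refine sum_eq_zero fun T hT => ?_
    exfalso
    rw [mem_filter] at hT
    apply hR
    rw [← hT.2]
    exact ⟨hAB M hM hMS T (hD hT.1), subset_union_right⟩

/-- The dimension count. -/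
theorem card_le_kill {A B : Finset (Finset α)} (hB : UC B) {S : Finset α}
    (hBS : ∀ T ∈ B, T ⊆ S) (hAB : ∀ M ∈ A, M ⊆ S → ∀ T ∈ B, T ∪ M ∈ B)
    {τ : α → ℕ} {i : α} (hi : i ∈ S) (hτi : τ i = 0) (hτ : Set.InjOn τ (S : Set α))
    {D : Finset (Finset α)} (hD : D ⊆ Ns B i) (hP : FreeIn A S i D)
    (B' : Finset (Finset α × α))
    (h : ∀ c : Finset α → ℚ, (∀ p ∈ B', flt B D c S τ p = 0) →
      ∀ p ∈ Bt B S τ i, flt B D c S τ p = 0) : D.card ≤ B'.card := by
  refine card_le_of_fun D B' (fun p T => if T ⊆ lg B (p.1.erase p.2) ∧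
    lg B (p.1.erase p.2) \ Qt S τ (τ p.2) ⊆ T then 1 else 0) ?_
  intro c hc
  have h1 := h c (fun p hp => hc p hp)
  have hDB : D ⊆ B := fun T hT => (mem_Ns.mp (hD hT)).1
  refine coeff_zero hAB hDB hP fun X hX hiX => ?_
  have h2 := FF_zero hB hBS hi hτi hτ hD h1 (S.sup τ + 1) (by omega) X hX hiX
  have h3 : Qt S τ (S.sup τ + 1) = S := by
    rw [Qt, filter_eq_self]
    intro x hx
    have := le_sup (f := τ) hx
    omega
  rwa [h3] at h2

theorem card_le_Bt {A B : Finset (Finset α)} (hB : UC B) {S : Finset α}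
    (hBS : ∀ T ∈ B, T ⊆ S) (hAB : ∀ M ∈ A, M ⊆ S → ∀ T ∈ B, T ∪ M ∈ B)
    {τ : α → ℕ} {i : α} (hi : i ∈ S) (hτi : τ i = 0) (hτ : Set.InjOn τ (S : Set α))
    {D : Finset (Finset α)} (hD : D ⊆ Ns B i) (hP : FreeIn A S i D) :
    D.card ≤ (Bt B S τ i).card :=
  card_le_kill hB hBS hAB hi hτi hτ hD hP _ fun _ h => h

/-- Two pairs with the same largest member below, in an order that ends with their points. -/
theorem card_lt_Bt {A B : Finset (Finset α)} (hB : UC B) {S : Finset α}
    (hBS : ∀ T ∈ B, T ⊆ S) (hAB : ∀ M ∈ A, M ⊆ S → ∀ T ∈ B, T ∪ M ∈ B)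
    {τ : α → ℕ} {i : α} (hi : i ∈ S) (hτi : τ i = 0) (hτ : Set.InjOn τ (S : Set α))
    {D : Finset (Finset α)} (hD : D ⊆ Ns B i) (hP : FreeIn A S i D)
    {u X X' : Finset α} {j j' : α} (hX : X ∈ B) (hX' : X' ∈ B) (hu : T6.Lg B u (X.erase j))
    (hu' : T6.Lg B u (X'.erase j')) (hiu : i ∉ u) (hiX : i ∈ X) (hiX' : i ∈ X') (hj : j ∈ X)
    (hj' : j' ∈ X') (hij : i ≠ j) (hij' : i ≠ j') (hjX' : j ∉ X')
    (h1 : ∀ x ∈ S, x ≠ j → τ x ≤ τ j') (h2 : τ j' < τ j) (h3 : ∀ x ∈ u, τ x < τ j') :
    D.card < (Bt B S τ i).card := by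
  have hlu : lg B (X.erase j) = u := by rw [lg_eq]; exact mx_eq hu
  have hlu' : lg B (X'.erase j') = u := by rw [lg_eq]; exact mx_eq hu'
  have hm1 : (X, j) ∈ Bt B S τ i := by
    rw [mem_Bt, mem_Bp]
    refine ⟨⟨⟨hX, hBS X hX hj⟩, hj, fun h => hiu ?_, mem_erase.mpr ⟨hij, hiX⟩, ?_⟩,
      ⟨u, hu.1, hu.2.1⟩, ?_⟩
    · exact hu.2.2 _ h subset_rfl (mem_erase.mpr ⟨hij, hiX⟩)
    · show i ∉ lg B (X.erase j)
      rw [hlu]
      exact hiu
    · intro x hx
      show τ x ≤ τ j
      by_cases hxj : x = j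
      · rw [hxj]
      · have := h1 x (hBS X hX (mem_sdiff.mp hx).1) hxj
        omega
  have hm2 : (X', j') ∈ Bt B S τ i := by
    rw [mem_Bt, mem_Bp]
    refine ⟨⟨⟨hX', hBS X' hX' hj'⟩, hj', fun h => hiu ?_, mem_erase.mpr ⟨hij', hiX'⟩, ?_⟩,
      ⟨u, hu'.1, hu'.2.1⟩, ?_⟩
    · exact hu'.2.2 _ h subset_rfl (mem_erase.mpr ⟨hij', hiX'⟩)
    · show i ∉ lg B (X'.erase j')
      rw [hlu']
      exact hiu
    · intro x hx
      show τ x ≤ τ j'
      have hxX : x ∈ X' := (mem_sdiff.mp hx).1
      exact h1 x (hBS X' hX' hxX) fun h => hjX' (h ▸ hxX)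
  have hne : ((X', j') : Finset α × α) ≠ (X, j) := fun h => by
    have : j' = j := congrArg Prod.snd h
    rw [this] at h2
    omega
  have hfl : ∀ c, flt B D c S τ (X, j) = flt B D c S τ (X', j') := by
    intro c
    have h4 : ∀ k, τ j' ≤ k → u \ Qt S τ k = ∅ := by
      intro k hk
      rw [sdiff_eq_empty_iff_subset]
      intro x hx
      rw [Qt, mem_filter]
      have := h3 x hx
      exact ⟨hBS u hu.1 hx, by omega⟩
    simp only [flt, FF, hlu, hlu']
    rw [h4 _ h2.le, h4 _ le_rfl]
  have h5 : D.card ≤ ((Bt B S τ i).erase (X, j)).card := by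
    refine card_le_kill hB hBS hAB hi hτi hτ hD hP _ fun c h p hp => ?_
    by_cases hpe : p = (X, j)
    · rw [hpe, hfl c]
      exact h _ (mem_erase.mpr ⟨hne, hm2⟩)
    · exact h p (mem_erase.mpr ⟨hpe, hp⟩)
  have := card_erase_lt_of_mem hm1
  omega

end Pool.Agent.H97.T7
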