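import Pool.Agent.H97.T7.Strict
import Pool.Agent.H97.T6.Final

/-!
# T7 (MP_75f39d_co): final forms
-/

set_option autoImplicit false

namespace Pool.Agent.H97.T7

open Finset Pool.Agent.H62.UC Pool.Agent.H51.UC
open Pool.Agent.H97.T6 (UC)

variable {α : Type*} [DecidableEq α]

/-- Either `L` is a rate at `x`, or the weight of `x` is minimal on `S` and some free set `D` of members
`T ∌ x`, `T ∪ {x} ∉ A`, has at least `L` times the number of all these members. -/
def Good (A : Finset (Finset α)) (S : Finset α) (lam : α → ℝ) (x : α) (L : ℝ) : Prop :=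
  Rt (S.erase x) lam x (Ds A S x) L ∨ ((∀ j ∈ S, lam x ≤ lam j) ∧
    ∃ D ⊆ Ns A x, T6.Indep A S x D ∧ L * ((Ns A x).card : ℝ) ≤ (D.card : ℝ))

theorem main_good {A : Finset (Finset α)} (hA : UC A) {S : Finset α} {lam L : α → ℝ}
    (h : ∀ x ∈ S, 0 ≤ lam x ∧ Good A S lam x (L x)) :
    ∑ x ∈ S, lam x * (((Ns A x).card : ℝ) * (L x - 1)) ≤
      ∑ x ∈ S, lam x * (2 * ((A.filter (fun T => x ∈ T)).card : ℝ) - (A.card : ℝ)) := by
  have h1 := main_w hA (S := S) (lam := lam) (fun x hx => (h x hx).1)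
    (g := fun x => L x * ((Ns A x).card : ℝ)) (fun x hx => by
      rcases (h x hx).2 with h2 | ⟨h2, D, hD, h3, h4⟩
      · exact Or.inl ⟨L x, h2, le_refl _⟩
      · exact Or.inr ⟨h2, D, hD, h3, h4⟩)
  refine le_trans (le_of_eq (sum_congr rfl fun x _ => ?_)) h1
  ring

theorem strict_good {A : Finset (Finset α)} (hA : UC A) (hne : A.Nonempty)
    (hsep : ∀ x ∈ A.sup id, ∀ y ∈ A.sup id, x ≠ y → ∃ T ∈ A, ¬ (x ∈ T ↔ y ∈ T))
    (hpow : A ≠ (A.sup id).powerset) {lam : α → ℝ}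
    (h : ∀ x ∈ A.sup id, 0 < lam x ∧ Good A (A.sup id) lam x 1) :
    ∃ x ∈ A.sup id, A.card < 2 * (A.filter (fun T => x ∈ T)).card := by
  refine strict_w hA hne hsep hpow (fun x hx => (h x hx).1) fun x hx => ?_
  rcases (h x hx).2 with h2 | ⟨h2, D, hD, h3, h4⟩
  · exact Or.inl h2
  · refine Or.inr ⟨h2, ?_⟩
    rw [one_mul] at h4
    have h5 : (Ns A x).card ≤ D.card := by exact_mod_cast h4
    rwa [← eq_of_subset_of_card_le hD h5]

/-- A set of members, each of which is the least of the set in its class modulo some `M`, `x ∈ M ⊆ S`,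
is free. -/
theorem free_of_least {A : Finset (Finset α)} {S : Finset α} {x : α} {D : Finset (Finset α)}
    (h : ∀ T ∈ D, ∃ M ∈ A, x ∈ M ∧ M ⊆ S ∧ ∀ T' ∈ D, T' \ M = T \ M → T ⊆ T') :
    T6.Indep A S x D := T6.indep_of_least h

/-- A set of members with, for each of its nonempty subsets `C`, a `T ∈ C` and an `M`, `x ∈ M ⊆ S`,
such that `T' ∖ M ≠ T ∖ M` for the other `T' ∈ C`, is free. -/
theorem free_of_peel {A : Finset (Finset α)} {S : Finset α} {x : α} {D : Finset (Finset α)}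
    (h : ∀ C ⊆ D, C.Nonempty → ∃ T ∈ C, ∃ M ∈ A, x ∈ M ∧ M ⊆ S ∧
      ∀ T' ∈ C, T' \ M = T \ M → T' = T) :
    T6.Indep A S x D := T6.indep_of_peel h

end Pool.Agent.H97.T7
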