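import Mathlib

/-!
# T7 row Perm (MP_75f39d_co): the number of orders in which a given point of a set is last

`T` a finite type with `m` points, `e : T ≃ Fin m`; an order of `T` is `fun x => e (σ x)`, `σ` a permutation.
Proof.  For `j, j' ∈ E` the map `σ ↦ σ * Equiv.swap j j'` is a bijection from the `σ` with `j` last in `E` to
the `σ` with `j'` last in `E` (`Equiv.swap j j'` permutes `E`; use `card_nbij'` or `card_bij'`, the map is an
involution composed with itself: `swap j j'` and `swap j' j`).  So all these numbers are equal to the number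
for `j`.  Every `σ` has exactly one last element `j' ∈ E` (`exists_max_image`, injectivity of `e ∘ σ`), so the
sum over `j' ∈ E` is the number of all permutations (`card_eq_sum_card_fiberwise` or `card_biUnion`).
-/

set_option autoImplicit false

namespace Pool.Agent.H97.T7

open Finset

theorem perm_last {T : Type*} [DecidableEq T] [Fintype T] {m : ℕ} (e : T ≃ Fin m)
    (E : Finset T) {j : T} (hj : j ∈ E) :
    E.card * ((univ : Finset (Equiv.Perm T)).filter fun σ => ∀ x ∈ E, e (σ x) ≤ e (σ j)).card =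
      (univ : Finset (Equiv.Perm T)).card := by
  classical
  have hswap : ∀ a ∈ E, ∀ b ∈ E, ∀ x ∈ E, Equiv.swap a b x ∈ E := by
    intro a ha b hb x hx
    by_cases h1 : x = a
    · rw [h1, Equiv.swap_apply_left]; exact hb
    · by_cases h2 : x = b
      · rw [h2, Equiv.swap_apply_right]; exact ha
      · rw [Equiv.swap_apply_of_ne_of_ne h1 h2]; exact hx
  have hmap : ∀ a ∈ E, ∀ b ∈ E, ∀ σ : Equiv.Perm T, (∀ x ∈ E, e (σ x) ≤ e (σ a)) →
      ∀ x ∈ E, e ((σ * Equiv.swap a b) x) ≤ e ((σ * Equiv.swap a b) b) := by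
    intro a ha b hb σ hσ x hx
    rw [Equiv.Perm.mul_apply, Equiv.Perm.mul_apply, Equiv.swap_apply_right]
    exact hσ _ (hswap a ha b hb x hx)
  have hle : ∀ a ∈ E, ∀ b ∈ E,
      ((univ : Finset (Equiv.Perm T)).filter fun σ => ∀ x ∈ E, e (σ x) ≤ e (σ a)).card ≤
        ((univ : Finset (Equiv.Perm T)).filter fun σ => ∀ x ∈ E, e (σ x) ≤ e (σ b)).card := by
    intro a ha b hb
    refine Finset.card_le_card_of_injOn (fun σ => σ * Equiv.swap a b) ?_ ?_
    · intro σ hσ
      have h1 := (Finset.mem_filter.mp (Finset.mem_coe.mp hσ)).2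
      exact Finset.mem_coe.mpr (Finset.mem_filter.mpr ⟨Finset.mem_univ _, hmap a ha b hb σ h1⟩)
    · intro σ _ τ _ hστ
      exact mul_right_cancel hστ
  have heq : ∀ b ∈ E,
      ((univ : Finset (Equiv.Perm T)).filter fun σ => ∀ x ∈ E, e (σ x) ≤ e (σ b)).card =
        ((univ : Finset (Equiv.Perm T)).filter fun σ => ∀ x ∈ E, e (σ x) ≤ e (σ j)).card :=
    fun b hb => le_antisymm (hle b hb j hj) (hle j hj b hb)
  have hdisj : ∀ a ∈ E, ∀ b ∈ E, a ≠ b → Disjoint
      ((univ : Finset (Equiv.Perm T)).filter fun σ => ∀ x ∈ E, e (σ x) ≤ e (σ a))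
      ((univ : Finset (Equiv.Perm T)).filter fun σ => ∀ x ∈ E, e (σ x) ≤ e (σ b)) := by
    intro a ha b hb hab
    rw [Finset.disjoint_left]
    intro σ h1 h2
    have h3 := (Finset.mem_filter.mp h1).2 b hb
    have h4 := (Finset.mem_filter.mp h2).2 a ha
    exact hab (σ.injective (e.injective (le_antisymm h4 h3)))
  have huniv : (univ : Finset (Equiv.Perm T)) = E.biUnion fun a =>
      ((univ : Finset (Equiv.Perm T)).filter fun σ => ∀ x ∈ E, e (σ x) ≤ e (σ a)) := by
    symm
    apply Finset.eq_univ_of_forall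
    intro σ
    obtain ⟨a, ha, hmax⟩ := Finset.exists_max_image E (fun x => e (σ x)) ⟨j, hj⟩
    exact Finset.mem_biUnion.mpr ⟨a, ha, Finset.mem_filter.mpr ⟨Finset.mem_univ _, hmax⟩⟩
  have hsum : (univ : Finset (Equiv.Perm T)).card = ∑ a ∈ E,
      ((univ : Finset (Equiv.Perm T)).filter fun σ => ∀ x ∈ E, e (σ x) ≤ e (σ a)).card := by
    conv_lhs => rw [huniv]
    exact Finset.card_biUnion hdisj
  rw [hsum, Finset.sum_congr rfl heq, Finset.sum_const, smul_eq_mul]

end Pool.Agent.H97.T7
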