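import Pool.Agent.H97.T7.Core
import Pool.Agent.H97.T7.Perm

/-!
# T7 (MP_75f39d_co): averaging over the orders of the ground set
-/

set_option autoImplicit false

namespace Pool.Agent.H97.T7

open Finset Pool.Agent.H62.UC
open Pool.Agent.H97.T6 (UC)

variable {α : Type*} [DecidableEq α]

/-- The order of `S` in which `i` is first and the other points come in the order given by `σ`. -/
noncomputable def ts (S : Finset α) (i : α) (σ : Equiv.Perm {x // x ∈ S.erase i}) (x : α) : ℕ :=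
  if h : x ∈ S.erase i then ((S.erase i).equivFin (σ ⟨x, h⟩)).val + 1 else 0

theorem ts_self (S : Finset α) (i : α) (σ : Equiv.Perm {x // x ∈ S.erase i}) : ts S i σ i = 0 := by
  rw [ts, dif_neg (notMem_erase i S)]

theorem ts_mem {S : Finset α} {i : α} (σ : Equiv.Perm {x // x ∈ S.erase i}) {x : α}
    (h : x ∈ S.erase i) : ts S i σ x = ((S.erase i).equivFin (σ ⟨x, h⟩)).val + 1 := by
  rw [ts, dif_pos h]

theorem ts_injOn (S : Finset α) (i : α) (σ : Equiv.Perm {x // x ∈ S.erase i}) :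
    Set.InjOn (ts S i σ) (S : Set α) := by
  intro x hx y hy hxy
  have hx' : x ∈ S := hx
  have hy' : y ∈ S := hy
  by_cases hxi : x = i
  · by_cases hyi : y = i
    · rw [hxi, hyi]
    · have h1 := ts_mem σ (mem_erase.mpr ⟨hyi, hy'⟩)
      rw [hxi, ts_self] at hxy
      omega
  · have h0 := ts_mem σ (mem_erase.mpr ⟨hxi, hx'⟩)
    by_cases hyi : y = i
    · rw [hyi, ts_self] at hxy
      omega
    · have h1 := ts_mem σ (mem_erase.mpr ⟨hyi, hy'⟩)
      have h2 : ((S.erase i).equivFin (σ ⟨x, mem_erase.mpr ⟨hxi, hx'⟩⟩)).val =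
          ((S.erase i).equivFin (σ ⟨y, mem_erase.mpr ⟨hyi, hy'⟩⟩)).val := by omega
      have h3 := σ.injective ((S.erase i).equivFin.injective (Fin.ext h2))
      exact congrArg Subtype.val h3

/-- The pairs with a member below. -/
def Bq (B : Finset (Finset α)) (S : Finset α) (i : α) : Finset (Finset α × α) :=
  (Bp B S i).filter fun p => ∃ W ∈ B, W ⊆ p.1.erase p.2

theorem card_E {B : Finset (Finset α)} {S : Finset α} (hBS : ∀ T ∈ B, T ⊆ S) {i : α}
    {p : Finset α × α} (hp : p ∈ Bp B S i) :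
    (((p.1 \ lg B (p.1.erase p.2)).erase i).subtype (· ∈ S.erase i)).card = kk B p + 1 := by
  rw [mem_Bp] at hp
  obtain ⟨⟨hX, hj⟩, hjX, -, hi, hil⟩ := hp
  have h1 : ((p.1 \ lg B (p.1.erase p.2)).erase i).filter (· ∈ S.erase i) =
      (p.1 \ lg B (p.1.erase p.2)).erase i := by
    rw [filter_eq_self]
    intro x hx
    rw [mem_erase, mem_sdiff] at hx
    exact mem_erase.mpr ⟨hx.1, hBS _ hX hx.2.1⟩
  rw [card_subtype, h1]
  have hjl : p.2 ∉ lg B (p.1.erase p.2) := fun h => notMem_erase _ _ (lg_sub _ _ h)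
  have h2 : p.1 \ lg B (p.1.erase p.2) =
      insert p.2 (p.1.erase p.2 \ lg B (p.1.erase p.2)) := by
    ext x
    simp only [mem_sdiff, mem_insert, mem_erase]
    constructor
    · rintro ⟨h3, h4⟩
      by_cases hx : x = p.2
      · exact Or.inl hx
      · exact Or.inr ⟨⟨hx, h3⟩, h4⟩
    · rintro (h3 | h3)
      · rw [h3]
        exact ⟨hjX, hjl⟩
      · exact ⟨h3.1.2, h3.2⟩
  have h3 : p.2 ∉ p.1.erase p.2 \ lg B (p.1.erase p.2) := fun h => by
    have := (mem_sdiff.mp h).1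
    exact notMem_erase _ _ this
  have hi2 : i ∈ p.1.erase p.2 \ lg B (p.1.erase p.2) := mem_sdiff.mpr ⟨hi, hil⟩
  have hpos := card_pos.mpr ⟨i, hi2⟩
  have h4 : i ∈ insert p.2 (p.1.erase p.2 \ lg B (p.1.erase p.2)) := mem_insert_of_mem hi2
  rw [h2, card_erase_of_mem h4, card_insert_of_notMem h3]
  unfold kk
  omega

theorem last_iff {B : Finset (Finset α)} {S : Finset α} (hBS : ∀ T ∈ B, T ⊆ S) {i : α}
    {p : Finset α × α} (hp : p ∈ Bp B S i) (hj : p.2 ∈ S.erase i)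
    (σ : Equiv.Perm {x // x ∈ S.erase i}) :
    (∀ x ∈ p.1 \ lg B (p.1.erase p.2), ts S i σ x ≤ ts S i σ p.2) ↔
      ∀ x ∈ ((p.1 \ lg B (p.1.erase p.2)).erase i).subtype (· ∈ S.erase i),
        (S.erase i).equivFin (σ x) ≤ (S.erase i).equivFin (σ ⟨p.2, hj⟩) := by
  rw [mem_Bp] at hp
  obtain ⟨⟨hX, -⟩, -, -, -, -⟩ := hp
  constructor
  · intro h x hx
    rw [mem_subtype, mem_erase] at hx
    have h1 := h x.1 hx.2
    rw [ts_mem σ x.2, ts_mem σ hj] at h1
    rw [Fin.le_def]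
    have h2 : (⟨x.1, x.2⟩ : {x // x ∈ S.erase i}) = x := rfl
    rw [h2] at h1
    omega
  · intro h x hx
    by_cases hxi : x = i
    · rw [hxi, ts_self]
      exact Nat.zero_le _
    · have hxV : x ∈ S.erase i := mem_erase.mpr ⟨hxi, hBS _ hX (mem_sdiff.mp hx).1⟩
      have h1 := h ⟨x, hxV⟩ (by
        rw [mem_subtype, mem_erase]
        exact ⟨hxi, hx⟩)
      rw [Fin.le_def] at h1
      rw [ts_mem σ hxV, ts_mem σ hj]
      omega

theorem sum_Bt {B : Finset (Finset α)} {S : Finset α} (hBS : ∀ T ∈ B, T ⊆ S) (i : α) :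
    ∑ σ : Equiv.Perm {x // x ∈ S.erase i}, ((Bt B S (ts S i σ) i).card : ℝ) =
      ((univ : Finset (Equiv.Perm {x // x ∈ S.erase i})).card : ℝ) *
        ∑ e ∈ Bq B S i, 1 / ((kk B e : ℝ) + 1) := by
  have h1 : ∀ σ : Equiv.Perm {x // x ∈ S.erase i}, ((Bt B S (ts S i σ) i).card : ℝ) =
      ∑ p ∈ Bq B S i,
        if (∀ x ∈ p.1 \ lg B (p.1.erase p.2), ts S i σ x ≤ ts S i σ p.2) then (1 : ℝ) else 0 := by
    intro σ
    rw [Bq, sum_boole, filter_filter]
    rfl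
  rw [sum_congr rfl fun σ _ => h1 σ, sum_comm, mul_sum]
  refine sum_congr rfl fun p hp => ?_
  rw [Bq, mem_filter] at hp
  have hpB := mem_Bp.mp hp.1
  have hj : p.2 ∈ S.erase i := by
    refine mem_erase.mpr ⟨?_, hpB.1.2⟩
    intro h
    have := hpB.2.2.2.1
    rw [h] at this
    exact notMem_erase _ _ this
  rw [sum_boole]
  have h2 := perm_last ((S.erase i).equivFin)
    (((p.1 \ lg B (p.1.erase p.2)).erase i).subtype (· ∈ S.erase i)) (j := ⟨p.2, hj⟩) (by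
      rw [mem_subtype, mem_erase, mem_sdiff]
      exact ⟨fun h => (mem_erase.mp hj).1 h, hpB.2.1,
        fun h => notMem_erase _ _ (lg_sub _ _ h)⟩)
  rw [card_E hBS hp.1] at h2
  have h3 : ((univ : Finset (Equiv.Perm {x // x ∈ S.erase i})).filter fun σ =>
      ∀ x ∈ p.1 \ lg B (p.1.erase p.2), ts S i σ x ≤ ts S i σ p.2) =
      (univ : Finset (Equiv.Perm {x // x ∈ S.erase i})).filter fun σ =>
        ∀ x ∈ ((p.1 \ lg B (p.1.erase p.2)).erase i).subtype (· ∈ S.erase i),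
        (S.erase i).equivFin (σ x) ≤ (S.erase i).equivFin (σ ⟨p.2, hj⟩) :=
    filter_congr fun σ _ => last_iff hBS hp.1 hj σ
  rw [h3]
  have h4 : ((kk B p + 1 : ℕ) : ℝ) * (((univ : Finset (Equiv.Perm {x // x ∈ S.erase i})).filter
      fun σ => ∀ x ∈ ((p.1 \ lg B (p.1.erase p.2)).erase i).subtype (· ∈ S.erase i),
        (S.erase i).equivFin (σ x) ≤ (S.erase i).equivFin (σ ⟨p.2, hj⟩)).card : ℝ) =
      ((univ : Finset (Equiv.Perm {x // x ∈ S.erase i})).card : ℝ) := by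
    exact_mod_cast h2
  have h5 : (0 : ℝ) < (kk B p : ℝ) + 1 := by positivity
  rw [← h4]
  push_cast
  field_simp

theorem Bq_sub (B : Finset (Finset α)) (S : Finset α) (i : α) : Bq B S i ⊆ Bp B S i :=
  filter_subset _ _

theorem sum_Bq_le (B : Finset (Finset α)) (S : Finset α) (i : α) :
    ∑ e ∈ Bq B S i, 1 / ((kk B e : ℝ) + 1) ≤ ∑ e ∈ Bp B S i, 1 / ((kk B e : ℝ) + 1) :=
  sum_le_sum_of_subset_of_nonneg (Bq_sub B S i) fun e _ _ => by positivity

/-- The averaged inequality. -/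
theorem free_gw {A B : Finset (Finset α)} (hB : UC B) {S : Finset α}
    (hBS : ∀ T ∈ B, T ⊆ S) (hAB : ∀ M ∈ A, M ⊆ S → ∀ T ∈ B, T ∪ M ∈ B) {i : α} (hi : i ∈ S)
    {D : Finset (Finset α)} (hD : D ⊆ Ns B i) (hP : FreeIn A S i D) :
    (D.card : ℝ) ≤ ∑ e ∈ Bp B S i, 1 / ((kk B e : ℝ) + 1) := by
  have h1 : ∑ _σ : Equiv.Perm {x // x ∈ S.erase i}, (D.card : ℝ) ≤
      ∑ σ : Equiv.Perm {x // x ∈ S.erase i}, ((Bt B S (ts S i σ) i).card : ℝ) :=
    sum_le_sum fun σ _ => by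
      exact_mod_cast card_le_Bt hB hBS hAB hi (ts_self S i σ) (ts_injOn S i σ) hD hP
  rw [sum_Bt hBS i, sum_const, nsmul_eq_mul] at h1
  have h2 : (0 : ℝ) < ((univ : Finset (Equiv.Perm {x // x ∈ S.erase i})).card : ℝ) := by
    exact_mod_cast card_pos.mpr ⟨1, mem_univ _⟩
  exact (le_of_mul_le_mul_left h1 h2).trans (sum_Bq_le B S i)

/-- An order in which `j` is last and `j'` is second last. -/
theorem exists_order {S : Finset α} {i j j' : α} (hj : j ∈ S.erase i) (hj' : j' ∈ S.erase i)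
    (hjj : j' ≠ j) : ∃ σ : Equiv.Perm {x // x ∈ S.erase i},
      ts S i σ j' < ts S i σ j ∧ ∀ x ∈ S, x ≠ j → ts S i σ x ≤ ts S i σ j' := by
  have hcard : 2 ≤ (S.erase i).card := by
    have h1 : ({j', j} : Finset α) ⊆ S.erase i := by
      intro x hx
      rw [mem_insert, mem_singleton] at hx
      rcases hx with h | h
      · rw [h]; exact hj'
      · rw [h]; exact hj
    have h2 := card_le_card h1
    rwa [card_pair hjj] at h2
  obtain ⟨n, hn⟩ : ∃ n, (S.erase i).card = n + 2 := ⟨(S.erase i).card - 2, by omega⟩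
  let e := (S.erase i).equivFin
  let a := e.symm ⟨n + 1, by omega⟩
  let b := e.symm ⟨n, by omega⟩
  have hab : a ≠ b := by
    intro h
    have h1 := e.symm.injective h
    rw [Fin.mk.injEq] at h1
    omega
  let J : {x // x ∈ S.erase i} := ⟨j, hj⟩
  let J' : {x // x ∈ S.erase i} := ⟨j', hj'⟩
  have hJ : J' ≠ J := fun h => hjj (congrArg Subtype.val h)
  let σ1 := Equiv.swap J a
  have hs1 : σ1 J = a := Equiv.swap_apply_left J a
  have hca : σ1 J' ≠ a := fun h => hJ (σ1.injective (h.trans hs1.symm))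
  let σ := σ1.trans (Equiv.swap (σ1 J') b)
  have hσJ : σ J = a := by
    show Equiv.swap (σ1 J') b (σ1 J) = a
    rw [hs1]
    exact Equiv.swap_apply_of_ne_of_ne (Ne.symm hca) hab
  have hσJ' : σ J' = b := by
    show Equiv.swap (σ1 J') b (σ1 J') = b
    exact Equiv.swap_apply_left _ _
  have hvJ : ts S i σ j = n + 2 := by
    rw [ts_mem σ hj]
    show (e (σ J)).val + 1 = n + 2
    rw [hσJ]
    show (e (e.symm ⟨n + 1, _⟩)).val + 1 = n + 2
    rw [Equiv.apply_symm_apply]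
  have hvJ' : ts S i σ j' = n + 1 := by
    rw [ts_mem σ hj']
    show (e (σ J')).val + 1 = n + 1
    rw [hσJ']
    show (e (e.symm ⟨n, _⟩)).val + 1 = n + 1
    rw [Equiv.apply_symm_apply]
  refine ⟨σ, by omega, fun x hx hxj => ?_⟩
  by_cases hxi : x = i
  · rw [hxi, ts_self]
    omega
  · have hxV : x ∈ S.erase i := mem_erase.mpr ⟨hxi, hx⟩
    have h1 : ts S i σ x ≠ ts S i σ j := fun h => hxj (ts_injOn S i σ hx (mem_of_mem_erase hj) h)
    have h2 : ts S i σ x ≤ n + 2 := by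
      rw [ts_mem σ hxV]
      have := (e (σ ⟨x, hxV⟩)).isLt
      show (e (σ ⟨x, hxV⟩)).val + 1 ≤ n + 2
      omega
    omega

/-- Strict form. -/
theorem free_gw_lt {A B : Finset (Finset α)} (hB : UC B) {S : Finset α}
    (hBS : ∀ T ∈ B, T ⊆ S) (hAB : ∀ M ∈ A, M ⊆ S → ∀ T ∈ B, T ∪ M ∈ B) {i : α} (hi : i ∈ S)
    {D : Finset (Finset α)} (hD : D ⊆ Ns B i) (hP : FreeIn A S i D)
    {u X X' : Finset α} {j j' : α} (hX : X ∈ B) (hX' : X' ∈ B) (hu : T6.Lg B u (X.erase j))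
    (hu' : T6.Lg B u (X'.erase j')) (hiu : i ∉ u) (hiX : i ∈ X) (hiX' : i ∈ X') (hj : j ∈ X)
    (hj' : j' ∈ X') (hij : i ≠ j) (hij' : i ≠ j') (hjX' : j ∉ X') :
    (D.card : ℝ) < ∑ e ∈ Bp B S i, 1 / ((kk B e : ℝ) + 1) := by
  have hjV : j ∈ S.erase i := mem_erase.mpr ⟨hij.symm, hBS X hX hj⟩
  have hjV' : j' ∈ S.erase i := mem_erase.mpr ⟨hij'.symm, hBS X' hX' hj'⟩
  have hjj : j' ≠ j := fun h => hjX' (h ▸ hj')
  obtain ⟨σ0, hs1, hs2⟩ := exists_order hjV hjV' hjj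
  have hju : j ∉ u := fun h => (mem_erase.mp (hu.2.1 h)).1 rfl
  have hju' : j' ∉ u := fun h => (mem_erase.mp (hu'.2.1 h)).1 rfl
  have h1 : ∑ _σ : Equiv.Perm {x // x ∈ S.erase i}, (D.card : ℝ) <
      ∑ σ : Equiv.Perm {x // x ∈ S.erase i}, ((Bt B S (ts S i σ) i).card : ℝ) := by
    refine sum_lt_sum (fun σ _ => by
      exact_mod_cast card_le_Bt hB hBS hAB hi (ts_self S i σ) (ts_injOn S i σ) hD hP)
      ⟨σ0, mem_univ _, ?_⟩
    have h2 := card_lt_Bt hB hBS hAB hi (ts_self S i σ0) (ts_injOn S i σ0) hD hP hX hX' hu hu'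
      hiu hiX hiX' hj hj' hij hij' hjX' hs2 hs1 (fun x hx => by
        have hxS := hBS u hu.1 hx
        have hxj : x ≠ j := fun h => hju (h ▸ hx)
        have hxj' : x ≠ j' := fun h => hju' (h ▸ hx)
        have h3 := hs2 x hxS hxj
        have h4 : ts S i σ0 x ≠ ts S i σ0 j' := fun h =>
          hxj' (ts_injOn S i σ0 hxS (mem_of_mem_erase hjV') h)
        omega)
    exact_mod_cast h2
  rw [sum_Bt hBS i, sum_const, nsmul_eq_mul] at h1
  have h2 : (0 : ℝ) < ((univ : Finset (Equiv.Perm {x // x ∈ S.erase i})).card : ℝ) := by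
    exact_mod_cast card_pos.mpr ⟨1, mem_univ _⟩
  exact (lt_of_mul_lt_mul_left h1 h2.le).trans_le (sum_Bq_le B S i)

end Pool.Agent.H97.T7
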