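import Pool.Agent.H97.T6.Final
import Pool.Agent.H62.UC.To

/-!
# T7 row Slice (MP_75f39d_co): free sets and slices

`Dsl D S R` is the set of the `T ∩ S`, `T ∈ D`, `T ∖ S = R`.
`sum_Dsl`: `T ↦ T ∩ S` is injective on the `T` with `T ∖ S = R` (`T = (T ∩ S) ∪ R`), so
`(Dsl D S R).card` is the number of the `T ∈ D` with `T ∖ S = R`; sum over `R` (`card_eq_sum_card_fiberwise`, the
map `T ↦ T ∖ S` goes to `((A.sup id) ∖ S).powerset`, as in `sum_Ns_sl` in `Pool/Agent/H62/UC/Th.lean`).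
`Dsl_sub`: from `mem_sl` and `mem_Ns`: `w = T ∩ S`, `w ∪ R = T`, `insert i w ∪ R = insert i T`.
`Dsl_indep`: given `c` with vanishing push-forwards on `Dsl D S R` let `c' T = c (T ∩ S)` if `T ∖ S = R` and `0`
otherwise.  For `M ∈ A`, `i ∈ M ⊆ S` and `R'`: the sum of `c'` over the `T ∈ D` with `T ∪ M = R'` is the sum of
`c w` over the `w ∈ Dsl D S R` with `w ∪ M = R' ∩ S` if `R' ∖ S = R`, and `0` otherwise (`(T ∪ M) ∖ S = T ∖ S`,
`(T ∪ M) ∩ S = (T ∩ S) ∪ M`).  So `h c'` gives `c' T = 0` for all `T ∈ D`, that is `c w = 0` on `Dsl D S R`.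
-/

set_option autoImplicit false

namespace Pool.Agent.H97.T7

open Finset Pool.Agent.H62.UC

variable {α : Type*} [DecidableEq α]

/-- The slice of `D` over `R`. -/
def Dsl (D : Finset (Finset α)) (S R : Finset α) : Finset (Finset α) :=
  (D.filter fun T => T \ S = R).image (· ∩ S)

private theorem Slice_join (T S : Finset α) : T ∩ S ∪ T \ S = T := by
  ext x
  simp only [mem_union, mem_inter, mem_sdiff]
  tauto

private theorem Slice_parts {S R w : Finset α} (hR : Disjoint R S) (hw : w ⊆ S) :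
    (w ∪ R) \ S = R ∧ (w ∪ R) ∩ S = w := by
  constructor
  · ext x
    simp only [mem_union, mem_sdiff]
    constructor
    · rintro ⟨h1 | h1, h2⟩
      · exact absurd (hw h1) h2
      · exact h1
    · intro h
      exact ⟨Or.inr h, fun h' => (disjoint_left.1 hR h h').elim⟩
  · ext x
    simp only [mem_union, mem_inter]
    constructor
    · rintro ⟨h1 | h1, h2⟩
      · exact h1
      · exact (disjoint_left.1 hR h1 h2).elim
    · intro h
      exact ⟨Or.inl h, hw h⟩

private theorem Slice_mem {D : Finset (Finset α)} {S R : Finset α} (hR : Disjoint R S)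
    {w : Finset α} : w ∈ Dsl D S R ↔ w ⊆ S ∧ w ∪ R ∈ D := mem_sl hR

theorem sum_Dsl {A D : Finset (Finset α)} (hD : D ⊆ A) (S : Finset α) :
    ∑ R ∈ ((A.sup id) \ S).powerset, (Dsl D S R).card = D.card := by
  rw [card_eq_sum_card_fiberwise (s := D) (f := fun T : Finset α => T \ S)
    (t := ((A.sup id) \ S).powerset) ?_]
  · refine sum_congr rfl fun R _ => ?_
    unfold Dsl
    refine card_image_of_injOn fun T hT T' hT' h => ?_
    have h1 : T \ S = R := (mem_filter.1 (mem_coe.1 hT)).2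
    have h2 : T' \ S = R := (mem_filter.1 (mem_coe.1 hT')).2
    have h3 : T ∩ S = T' ∩ S := h
    rw [← Slice_join T S, ← Slice_join T' S, h1, h2, h3]
  · intro T hT
    have h : T ⊆ A.sup id := Finset.le_sup (f := id) (hD hT)
    exact mem_coe.2 (mem_powerset.2 (sdiff_subset_sdiff h (Subset.refl S)))

theorem Dsl_sub {A D : Finset (Finset α)} {i : α} (hD : D ⊆ Ns A i) {S R : Finset α} (hi : i ∈ S)
    (hR : Disjoint R S) : Dsl D S R ⊆ Ns (sl A S R) i := by
  intro w hw
  obtain ⟨h1, h2⟩ := (Slice_mem hR).1 hw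
  obtain ⟨h3, h4, h5⟩ := mem_Ns.1 (hD h2)
  rw [mem_Ns, mem_sl hR, mem_sl hR]
  refine ⟨⟨h1, h3⟩, fun h => h4 (mem_union_left _ h), fun h => h5 ?_⟩
  rw [← insert_union]
  exact h.2

theorem Dsl_indep {A D : Finset (Finset α)} {S : Finset α} {i : α} (h : H97.T6.Indep A S i D)
    {R : Finset α} (hR : Disjoint R S) (c : Finset α → ℚ)
    (hc : ∀ M ∈ A, i ∈ M → M ⊆ S → ∀ R', ∑ w ∈ Dsl D S R with w ∪ M = R', c w = 0) :
    ∀ w ∈ Dsl D S R, c w = 0 := by
  intro w hw
  obtain ⟨h1, h2⟩ := (Slice_mem hR).1 hw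
  have key := h (fun T => if T \ S = R then c (T ∩ S) else 0) ?_ (w ∪ R) h2
  · simp only [(Slice_parts hR h1).1, (Slice_parts hR h1).2, if_true] at key
    exact key
  · intro M hM hiM hMS R'
    rw [← sum_filter]
    by_cases hR' : R' \ S = R
    · rw [← hc M hM hiM hMS (R' ∩ S)]
      refine sum_bij' (fun T _ => T ∩ S) (fun w _ => w ∪ R) ?_ ?_ ?_ ?_ ?_
      · intro T hT
        obtain ⟨hT1, hT2⟩ := mem_filter.1 hT
        obtain ⟨hT3, hT4⟩ := mem_filter.1 hT1
        refine mem_filter.2 ⟨(Slice_mem hR).2 ⟨inter_subset_right, ?_⟩, ?_⟩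
        · rw [← hT2, Slice_join]
          exact hT3
        · rw [← hT4, union_inter_distrib_right, inter_eq_left.2 hMS]
      · intro v hv
        obtain ⟨hv1, hv2⟩ := mem_filter.1 hv
        obtain ⟨hv3, hv4⟩ := (Slice_mem hR).1 hv1
        refine mem_filter.2 ⟨mem_filter.2 ⟨hv4, ?_⟩, (Slice_parts hR hv3).1⟩
        rw [union_right_comm, hv2, ← hR', Slice_join]
      · intro T hT
        obtain ⟨hT1, hT2⟩ := mem_filter.1 hT
        rw [← hT2, Slice_join]
      · intro v hv
        obtain ⟨hv1, hv2⟩ := mem_filter.1 hv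
        exact (Slice_parts hR ((Slice_mem hR).1 hv1).1).2
      · intro T hT
        rfl
    · refine sum_eq_zero fun T hT => ?_
      exfalso
      obtain ⟨hT1, hT2⟩ := mem_filter.1 hT
      obtain ⟨hT3, hT4⟩ := mem_filter.1 hT1
      apply hR'
      rw [← hT4, union_sdiff_distrib, hT2, sdiff_eq_empty_iff_subset.2 hMS, union_empty]

end Pool.Agent.H97.T7
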