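import Pool.Agent.H97.T7.FreeGw
import Pool.Agent.H97.T7.Bsum
import Pool.Agent.H97.T7.Slice
import Pool.Agent.H97.T7.Atoms
import Pool.Agent.H62.UC.Tp

/-!
# T7 (MP_75f39d_co): rates or free sets, pointwise, with weights
-/

set_option autoImplicit false

namespace Pool.Agent.H97.T7

open Finset Pool.Agent.H62.UC Pool.Agent.H51.UC
open Pool.Agent.H97.T6 (UC)

variable {α : Type*} [DecidableEq α]

theorem gw_one {A B : Finset (Finset α)} {S : Finset α} (hB : ∀ T ∈ B, ∀ T' ∈ B, T ∪ T' ∈ B)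
    (hBS : ∀ T ∈ B, T ⊆ S) (hAB : ∀ T ∈ A, T ⊆ S → ∀ w ∈ B, T ∪ w ∈ B) {lam : α → ℝ}
    (hlam : ∀ i ∈ S, 0 ≤ lam i) {i : α} (hi : i ∈ S) {L : ℝ}
    (hL : Rt (S.erase i) lam i (Ds A S i) L) :
    lam i * (L * ((Ns B i).card : ℝ)) ≤ ∑ e ∈ Bp B S i, lam e.2 * (1 / ((kk B e : ℝ) + 1)) := by
  refine (gw_w hB hBS hAB hlam hi hL).trans (sum_le_sum fun e he => ?_)
  exact mul_le_mul_of_nonneg_left (half_pow_le _) (hlam _ (mem_Bp.mp he).1.2)

theorem free_one {A B : Finset (Finset α)} {S : Finset α} (hB : ∀ T ∈ B, ∀ T' ∈ B, T ∪ T' ∈ B)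
    (hBS : ∀ T ∈ B, T ⊆ S) (hAB : ∀ T ∈ A, T ⊆ S → ∀ w ∈ B, T ∪ w ∈ B) {lam : α → ℝ}
    (hlam : ∀ i ∈ S, 0 ≤ lam i) {i : α} (hi : i ∈ S) (hmin : ∀ j ∈ S, lam i ≤ lam j)
    {D : Finset (Finset α)} (hD : D ⊆ Ns B i) (hP : FreeIn A S i D) :
    lam i * (D.card : ℝ) ≤ ∑ e ∈ Bp B S i, lam e.2 * (1 / ((kk B e : ℝ) + 1)) := by
  have h1 := free_gw hB hBS (fun M hM hMS T hT => by
    rw [union_comm]; exact hAB M hM hMS T hT) hi hD hP
  refine (mul_le_mul_of_nonneg_left h1 (hlam i hi)).trans ?_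
  rw [mul_sum]
  refine sum_le_sum fun e he => ?_
  exact mul_le_mul_of_nonneg_right (hmin _ (mem_Bp.mp he).1.2) (by positivity)

theorem disj {A : Finset (Finset α)} {S R : Finset α}
    (hR : R ∈ ((A.sup id) \ S).powerset) : Disjoint R S :=
  disjoint_of_subset_left (mem_powerset.1 hR) sdiff_disjoint

theorem sl_uc {A : Finset (Finset α)} (hA : UC A) {S R : Finset α} (hd : Disjoint R S) :
    ∀ T ∈ sl A S R, ∀ T' ∈ sl A S R, T ∪ T' ∈ sl A S R := by
  intro T hT T' hT'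
  rw [mem_sl hd] at hT hT' ⊢
  refine ⟨union_subset hT.1 hT'.1, ?_⟩
  have h := hA _ hT.2 _ hT'.2
  have h1 : T ∪ R ∪ (T' ∪ R) = T ∪ T' ∪ R := by
    ext x
    simp only [mem_union]
    tauto
  rw [h1] at h
  exact h

theorem sl_mod {A : Finset (Finset α)} (hA : UC A) {S R : Finset α} (hd : Disjoint R S) :
    ∀ T ∈ A, T ⊆ S → ∀ w ∈ sl A S R, T ∪ w ∈ sl A S R := by
  intro T hT hTS w hw
  rw [mem_sl hd] at hw ⊢
  refine ⟨union_subset hTS hw.1, ?_⟩
  rw [union_assoc]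
  exact hA _ hT _ hw.2

theorem main_w {A : Finset (Finset α)} (hA : UC A) {S : Finset α}
    {lam : α → ℝ} (hlam : ∀ i ∈ S, 0 ≤ lam i) {g : α → ℝ}
    (hg : ∀ i ∈ S, (∃ L : ℝ, Rt (S.erase i) lam i (Ds A S i) L ∧ g i ≤ L * ((Ns A i).card : ℝ)) ∨
      ((∀ j ∈ S, lam i ≤ lam j) ∧
        ∃ D ⊆ Ns A i, T6.Indep A S i D ∧ g i ≤ (D.card : ℝ))) :
    ∑ i ∈ S, lam i * (g i - ((Ns A i).card : ℝ)) ≤
      ∑ i ∈ S, lam i * (2 * ((A.filter (fun T => i ∈ T)).card : ℝ) - (A.card : ℝ)) := by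
  have key : ∀ i ∈ S, lam i * g i ≤ ∑ R ∈ ((A.sup id) \ S).powerset,
      ∑ e ∈ Bp (sl A S R) S i, lam e.2 * (1 / ((kk (sl A S R) e : ℝ) + 1)) := by
    intro i hi
    rcases hg i hi with ⟨L, hL, hgL⟩ | ⟨hmin, D, hD, hP, hgD⟩
    · refine (mul_le_mul_of_nonneg_left hgL (hlam i hi)).trans ?_
      rw [← sum_Ns_sl A hi]
      push_cast
      rw [mul_sum, mul_sum]
      refine sum_le_sum fun R hR => ?_
      have hd := disj hR
      exact gw_one (sl_uc hA hd) (fun T hT => ((mem_sl hd).1 hT).1) (sl_mod hA hd) hlam hi hL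
    · refine (mul_le_mul_of_nonneg_left hgD (hlam i hi)).trans ?_
      have hDA : D ⊆ A := fun T hT => (mem_Ns.mp (hD hT)).1
      rw [← sum_Dsl hDA S]
      push_cast
      rw [mul_sum]
      refine sum_le_sum fun R hR => ?_
      have hd := disj hR
      exact free_one (sl_uc hA hd) (fun T hT => ((mem_sl hd).1 hT).1) (sl_mod hA hd) hlam hi hmin
        (Dsl_sub hD hi hd) (Dsl_indep hP hd)
  have h1 := sum_le_sum key
  rw [sum_comm] at h1
  have h2 : ∑ R ∈ ((A.sup id) \ S).powerset, ∑ i ∈ S,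
      ∑ e ∈ Bp (sl A S R) S i, lam e.2 * (1 / ((kk (sl A S R) e : ℝ) + 1)) ≤
      ∑ R ∈ ((A.sup id) \ S).powerset, ∑ j ∈ S, lam j * ((Bd (sl A S R) j).card : ℝ) :=
    sum_le_sum fun R _ => bsum1 (sl A S R) S hlam
  rw [sum_comm (s := ((A.sup id) \ S).powerset) (t := S)
    (f := fun R j => lam j * ((Bd (sl A S R) j).card : ℝ))] at h2
  have h3 : ∀ i ∈ S, ∑ R ∈ ((A.sup id) \ S).powerset,
      lam i * ((Bd (sl A S R) i).card : ℝ) = lam i * ((Bd A i).card : ℝ) := by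
    intro i hi
    rw [← mul_sum, ← sum_Bd_sl A hi]
    push_cast
    rfl
  rw [sum_congr rfl h3] at h2
  have h4 : ∀ i ∈ S, lam i * (2 * ((A.filter (fun T => i ∈ T)).card : ℝ) - (A.card : ℝ)) =
      lam i * ((Bd A i).card : ℝ) - lam i * ((Ns A i).card : ℝ) := by
    intro i _
    rw [freq_identity, mul_sub]
  have h5 : ∀ i ∈ S, lam i * (g i - ((Ns A i).card : ℝ)) =
      lam i * g i - lam i * ((Ns A i).card : ℝ) := by
    intro i _
    ring
  rw [sum_congr rfl h4, sum_congr rfl h5, sum_sub_distrib, sum_sub_distrib]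
  linarith

/-- The alternative at a point. -/
def Alt (A : Finset (Finset α)) (S : Finset α) (lam : α → ℝ) (i : α) : Prop :=
  Rt (S.erase i) lam i (Ds A S i) 1 ∨ ((∀ j ∈ S, lam i ≤ lam j) ∧ T6.Indep A S i (Ns A i))

theorem le_P {A : Finset (Finset α)} (hA : UC A) {lam : α → ℝ}
    (hlam : ∀ i ∈ A.sup id, 0 < lam i) {i : α} (hi : i ∈ A.sup id)
    (hd : Alt A (A.sup id) lam i) :
    lam i * ((Ns A i).card : ℝ) ≤
      ∑ e ∈ Bp A (A.sup id) i, lam e.2 * (1 / ((kk A e : ℝ) + 1)) := by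
  have hsub : ∀ T ∈ A, T ⊆ A.sup id := fun T hT => Finset.le_sup (f := id) hT
  have hlam0 : ∀ i ∈ A.sup id, 0 ≤ lam i := fun i hi => (hlam i hi).le
  rcases hd with h | ⟨hmin, hP⟩
  · have h1 := gw_one (A := A) (B := A) (S := A.sup id) hA hsub
      (fun T hT _ w hw => hA T hT w hw) hlam0 hi h
    rwa [one_mul] at h1
  · exact free_one (A := A) (B := A) (S := A.sup id) hA hsub
      (fun T hT _ w hw => hA T hT w hw) hlam0 hi hmin subset_rfl hP

theorem eq_case {A : Finset (Finset α)} (hA : UC A) {lam : α → ℝ}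
    (hlam : ∀ i ∈ A.sup id, 0 < lam i)
    (hd : ∀ i ∈ A.sup id, Alt A (A.sup id) lam i)
    (hf : ∀ i ∈ A.sup id, 2 * (A.filter (fun T => i ∈ T)).card ≤ A.card) :
    ∀ i ∈ A.sup id, 2 * (A.filter (fun T => i ∈ T)).card = A.card ∧
      lam i * ((Ns A i).card : ℝ) =
        ∑ e ∈ Bp A (A.sup id) i, lam e.2 * (1 / ((kk A e : ℝ) + 1)) := by
  have hlam0 : ∀ i ∈ A.sup id, 0 ≤ lam i := fun i hi => (hlam i hi).le
  have hg := fun i hi => le_P hA hlam hi (hd i hi)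
  have hb := bsum1 A (A.sup id) hlam0
  have hnp : ∀ i ∈ A.sup id,
      lam i * (2 * ((A.filter (fun T => i ∈ T)).card : ℝ) - (A.card : ℝ)) ≤ 0 := by
    intro i hi
    have h1 : ((2 * (A.filter (fun T => i ∈ T)).card : ℕ) : ℝ) ≤ (A.card : ℝ) :=
      Nat.cast_le.2 (hf i hi)
    rw [Nat.cast_mul, Nat.cast_ofNat] at h1
    exact mul_nonpos_of_nonneg_of_nonpos (hlam0 i hi) (by linarith)
  have hsum : ∑ i ∈ A.sup id,
      lam i * (2 * ((A.filter (fun T => i ∈ T)).card : ℝ) - (A.card : ℝ)) =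
      ∑ i ∈ A.sup id, lam i * ((Bd A i).card : ℝ) -
        ∑ i ∈ A.sup id, lam i * ((Ns A i).card : ℝ) := by
    rw [← sum_sub_distrib]
    exact sum_congr rfl fun i _ => by rw [freq_identity A i, mul_sub]
  have hle := sum_le_sum hg
  have hle0 := sum_nonpos hnp
  have h0 : ∑ i ∈ A.sup id,
      lam i * (2 * ((A.filter (fun T => i ∈ T)).card : ℝ) - (A.card : ℝ)) = 0 := by
    refine le_antisymm hle0 ?_
    rw [hsum]
    linarith
  have h1 := (sum_eq_zero_iff_of_nonpos hnp).mp h0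
  have h2 : ∑ i ∈ A.sup id, lam i * ((Ns A i).card : ℝ) = ∑ i ∈ A.sup id,
      ∑ e ∈ Bp A (A.sup id) i, lam e.2 * (1 / ((kk A e : ℝ) + 1)) := by
    refine le_antisymm hle ?_
    rw [hsum] at h0
    linarith
  have h3 := (sum_eq_sum_iff_of_le hg).mp h2
  intro i hi
  refine ⟨?_, h3 i hi⟩
  have h4 := h1 i hi
  have h5 : 2 * ((A.filter (fun T => i ∈ T)).card : ℝ) - (A.card : ℝ) = 0 := by
    rcases mul_eq_zero.mp h4 with h | h
    · exact absurd h (hlam i hi).ne'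
    · exact h
  have h6 : ((2 * (A.filter (fun T => i ∈ T)).card : ℕ) : ℝ) = (A.card : ℝ) := by
    push_cast
    linarith
  exact_mod_cast h6

theorem strict_of_empty {A : Finset (Finset α)} (hA : UC A) (h0 : ∅ ∈ A)
    (hsep : ∀ x ∈ A.sup id, ∀ y ∈ A.sup id, x ≠ y → ∃ T ∈ A, ¬ (x ∈ T ↔ y ∈ T))
    (hpow : A ≠ (A.sup id).powerset) {lam : α → ℝ}
    (hlam : ∀ i ∈ A.sup id, 0 < lam i)
    (hd : ∀ i ∈ A.sup id, Alt A (A.sup id) lam i) :
    ∃ i ∈ A.sup id, A.card < 2 * (A.filter (fun T => i ∈ T)).card := by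
  by_contra hcon
  have hfreq : ∀ x ∈ A.sup id, 2 * (A.filter (fun T => x ∈ T)).card ≤ A.card := by
    intro x hx
    by_contra h
    exact hcon ⟨x, hx, by omega⟩
  have hsub : ∀ T ∈ A, T ⊆ A.sup id := fun T hT => Finset.le_sup (f := id) hT
  have hlam0 : ∀ i ∈ A.sup id, 0 ≤ lam i := fun i hi => (hlam i hi).le
  have heq := eq_case hA hlam hd hfreq
  obtain ⟨T', hT', hc2, hmin, hns⟩ := minimal_member hA h0 hpow (fun i hi => (heq i hi).1)
  have hTne : T'.Nonempty := card_pos.mp (by omega)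
  obtain ⟨k, hk, hkmax⟩ := exists_max_image T' lam hTne
  have hkU : k ∈ A.sup id := hsub _ hT' hk
  -- a member that contains another point of `T'` but not `k`
  have hex : ∀ i ∈ T', i ≠ k → ∃ Y ∈ A, k ∉ Y ∧ i ∈ Y := by
    intro i hi hik
    have hiU := hsub _ hT' hi
    by_contra h
    push Not at h
    have hss : A.filter (fun T => i ∈ T) ⊆ A.filter (fun T => k ∈ T) := by
      intro T hT
      rw [mem_filter] at hT ⊢
      refine ⟨hT.1, ?_⟩
      by_contra hkT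
      exact h T hT.1 hkT hT.2
    have h8 := (heq i hiU).1
    have h9 := (heq k hkU).1
    have heq2 := eq_of_subset_of_card_le hss (by omega)
    obtain ⟨T, hTA, hT3⟩ := hsep i hiU k hkU hik
    refine hT3 ⟨fun h => ?_, fun h => ?_⟩
    · exact (mem_filter.1 (hss (mem_filter.2 ⟨hTA, h⟩))).2
    · have h8 : T ∈ A.filter (fun T => k ∈ T) := mem_filter.2 ⟨hTA, h⟩
      rw [← heq2] at h8
      exact (mem_filter.1 h8).2
  obtain ⟨i0, hi0, hi0k⟩ : ∃ i ∈ T', i ≠ k := by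
    obtain ⟨i, hi, hik⟩ := exists_mem_ne (by omega : 1 < T'.card) k
    exact ⟨i, hi, hik⟩
  refine no_atom hA h0 hT' hc2 hmin hk (by
    obtain ⟨Y, hY, h1, h2⟩ := hex i0 hi0 hi0k
    exact ⟨Y, hY, h1, i0, hi0, h2⟩) ?_
  intro i hi hik u X X' j j' hX hX' hu hu' hiu hiX hiX' hj hj' hij hij' hjX'
  have hiU := hsub _ hT' hi
  have hli := hlam i hiU
  rcases hd i hiU with hr | ⟨hmn, hP⟩
  · -- the point has rate one: equality in `gw_w`
    have hgw := gw_w (A := A) (B := A) (S := A.sup id) hA hsub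
      (fun T hT _ w hw => hA T hT w hw) hlam0 hiU hr
    rw [one_mul] at hgw
    have hge : ∑ e ∈ Bp A (A.sup id) i, lam e.2 * (1 / 2 : ℝ) ^ kk A e ≤
        lam i * ((Ns A i).card : ℝ) := by
      rw [(heq i hiU).2]
      exact sum_le_sum fun e he =>
        mul_le_mul_of_nonneg_left (half_pow_le _) (hlam0 _ (mem_Bp.mp he).1.2)
    have he2 := le_antisymm hgw hge
    by_cases h3 : 3 ≤ T'.card
    · obtain ⟨c1, c2, c3⟩ := case_three h0 hT' h3 hmin hi hk hik
      have hadm := hr.adm (filter_subset _ _) hli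
      have h1 := gw_lt (A := A) (B := A) (S := A.sup id) hA hsub
        (fun T hT _ w hw => hA T hT w hw) hiU
        (p := fun _ => (1 / 2 : ℝ)) (l := fun j => lam j / lam i)
        (fun j _ => ⟨by norm_num, le_refl _⟩)
        (fun j hj => div_nonneg (hlam j (mem_of_mem_erase hj)).le hli.le) hadm
        (e0 := (T', k)) c1 (div_pos (hlam k hkU) hli) (by
          show lg A (T'.erase k) ∈ A
          rw [c2]
          exact h0) (by
          show wP ((A.sup id).erase i) (fun _ => 1 / 2) (fib2 A (A.sup id) i k T') <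
            (1 / 2 : ℝ) ^ kk A (T', k) * wP ((A.sup id).erase i) (fun _ => 1 / 2)
              (fib A (A.sup id) i (lg A (T'.erase k)))
          rw [c2]
          exact c3)
      have h2 := mul_lt_mul_of_pos_left h1 hli
      have h4 : lam i * ∑ e ∈ Bp A (A.sup id) i, lam e.2 / lam i * (1 / 2 : ℝ) ^ kk A e =
          ∑ e ∈ Bp A (A.sup id) i, lam e.2 * (1 / 2 : ℝ) ^ kk A e := by
        rw [mul_sum]
        refine sum_congr rfl fun e _ => ?_
        field_simp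
      rw [one_mul, h4] at h2
      exact absurd he2 (ne_of_lt h2)
    · have h7 : T'.card = 2 := by omega
      have h8 : T' = {k, i} := by
        symm
        apply eq_of_subset_of_card_le
        · intro x hx
          rw [mem_insert, mem_singleton] at hx
          rcases hx with h | h
          · rw [h]; exact hk
          · rw [h]; exact hi
        · rw [h7, card_pair hik.symm]
      obtain ⟨Y, hY, h9, h10⟩ := hex i hi hik
      rw [h8] at hT'
      exact h9 (case_two_w hA h0 hlam hik.symm hT' (hns i hi) (hkmax i hi) he2 hY h10)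
  · have h1 := free_gw_lt (A := A) (B := A) hA hsub (fun M hM _ T hT => hA T hT M hM) hiU
      (D := Ns A i) subset_rfl hP hX hX' hu hu' hiu hiX hiX' hj hj' hij hij' hjX'
    have h2 : lam i * ((Ns A i).card : ℝ) < lam i *
        ∑ e ∈ Bp A (A.sup id) i, 1 / ((kk A e : ℝ) + 1) := mul_lt_mul_of_pos_left h1 hli
    have h3 : lam i * ∑ e ∈ Bp A (A.sup id) i, 1 / ((kk A e : ℝ) + 1) ≤
        ∑ e ∈ Bp A (A.sup id) i, lam e.2 * (1 / ((kk A e : ℝ) + 1)) := by
      rw [mul_sum]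
      exact sum_le_sum fun e he =>
        mul_le_mul_of_nonneg_right (hmn _ (mem_Bp.mp he).1.2) (by positivity)
    exact absurd (heq i hiU).2 (ne_of_lt (h2.trans_le h3))

end Pool.Agent.H97.T7
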