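import Pool.Agent.H97.T7.Star

/-!
# T7 (MP_75f39d_co): a point of frequency above one half
-/

set_option autoImplicit false

namespace Pool.Agent.H97.T7

open Finset Pool.Agent.H62.UC Pool.Agent.H51.UC
open Pool.Agent.H97.T6 (UC)

variable {α : Type*} [DecidableEq α]

/-- The averaged inequality, with only the pairs that have a member below. -/
theorem free_gw' {A B : Finset (Finset α)} (hB : UC B) {S : Finset α}
    (hBS : ∀ T ∈ B, T ⊆ S) (hAB : ∀ M ∈ A, M ⊆ S → ∀ T ∈ B, T ∪ M ∈ B) {i : α} (hi : i ∈ S)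
    {D : Finset (Finset α)} (hD : D ⊆ Ns B i) (hP : FreeIn A S i D) :
    (D.card : ℝ) ≤ ∑ e ∈ Bq B S i, 1 / ((kk B e : ℝ) + 1) := by
  have h1 : ∑ _σ : Equiv.Perm {x // x ∈ S.erase i}, (D.card : ℝ) ≤
      ∑ σ : Equiv.Perm {x // x ∈ S.erase i}, ((Bt B S (ts S i σ) i).card : ℝ) :=
    sum_le_sum fun σ _ => by
      exact_mod_cast card_le_Bt hB hBS hAB hi (ts_self S i σ) (ts_injOn S i σ) hD hP
  rw [sum_Bt hBS i, sum_const, nsmul_eq_mul] at h1
  have h2 : (0 : ℝ) < ((univ : Finset (Equiv.Perm {x // x ∈ S.erase i})).card : ℝ) := by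
    exact_mod_cast card_pos.mpr ⟨1, mem_univ _⟩
  exact le_of_mul_le_mul_left h1 h2

/-- A one-point member whose point is in more than half of the members. -/
theorem lt_of_singleton {A : Finset (Finset α)} (hA : UC A) (h0 : ∅ ∉ A) {i : α}
    (hi : {i} ∈ A) : A.card < 2 * (A.filter (fun T => i ∈ T)).card := by
  have h1 : (A.filter (fun T => i ∉ T)).card < (A.filter (fun T => i ∈ T)).card := by
    have h2 : (A.filter (fun T => i ∉ T)).image (fun T => T ∪ {i}) ⊂
        A.filter (fun T => i ∈ T) := by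
      refine Finset.ssubset_iff_subset_ne.mpr ⟨?_, ?_⟩
      · intro T hT
        obtain ⟨W, hW, rfl⟩ := mem_image.mp hT
        rw [mem_filter] at hW
        exact mem_filter.mpr ⟨hA W hW.1 _ hi, mem_union_right _ (mem_singleton_self i)⟩
      · intro h
        have h3 : ({i} : Finset α) ∈ (A.filter (fun T => i ∉ T)).image (fun T => T ∪ {i}) := by
          rw [h]
          exact mem_filter.mpr ⟨hi, mem_singleton_self i⟩
        obtain ⟨W, hW, hWi⟩ := mem_image.mp h3
        rw [mem_filter] at hW
        have h4 : W = ∅ := by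
          rw [eq_empty_iff_forall_notMem]
          intro x hx
          have h5 : x ∈ W ∪ {i} := mem_union_left _ hx
          rw [hWi, mem_singleton] at h5
          rw [h5] at hx
          exact hW.2 hx
        rw [h4] at hW
        exact h0 hW.1
    have h3 := card_lt_card h2
    rwa [card_image_of_injOn] at h3
    intro W hW W' hW' h
    rw [mem_coe, mem_filter] at hW hW'
    have h5 : W ∪ {i} = W' ∪ {i} := h
    ext x
    constructor
    · intro hx
      have h4 : x ∈ W' ∪ {i} := by
        rw [← h5]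
        exact mem_union_left _ hx
      rw [mem_union, mem_singleton] at h4
      rcases h4 with h4 | h4
      · exact h4
      · rw [h4] at hx
        exact absurd hx hW.2
    · intro hx
      have h4 : x ∈ W ∪ {i} := by
        rw [h5]
        exact mem_union_left _ hx
      rw [mem_union, mem_singleton] at h4
      rcases h4 with h4 | h4
      · exact h4
      · rw [h4] at hx
        exact absurd hx hW'.2
  have h2 := card_filter_add_card_filter_not (s := A) (fun T => i ∈ T)
  omega

theorem lg_ins (A : Finset (Finset α)) (Z : Finset α) : lg (insert ∅ A) Z = lg A Z := by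
  unfold lg
  rw [filter_insert, if_pos (empty_subset Z), sup_insert]
  exact bot_sup_eq _

theorem kk_ins (A : Finset (Finset α)) (e : Finset α × α) : kk (insert ∅ A) e = kk A e := by
  unfold kk
  rw [lg_ins]

theorem Bp_ins (A : Finset (Finset α)) (S : Finset α) (i : α) :
    Bp (insert ∅ A) S i = Bp A S i := by
  ext e
  rw [mem_Bp, mem_Bp, lg_ins, mem_insert, mem_insert]
  constructor
  · rintro ⟨⟨h1, h2⟩, h3, h4, h5, h6⟩
    refine ⟨⟨?_, h2⟩, h3, fun h => h4 (Or.inr h), h5, h6⟩
    rcases h1 with h1 | h1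
    · rw [h1] at h3
      exact absurd h3 (notMem_empty _)
    · exact h1
  · rintro ⟨⟨h1, h2⟩, h3, h4, h5, h6⟩
    refine ⟨⟨Or.inr h1, h2⟩, h3, ?_, h5, h6⟩
    rintro (h | h)
    · rw [h] at h5
      exact absurd h5 (notMem_empty _)
    · exact h4 h

theorem Ds_ins (A : Finset (Finset α)) (S : Finset α) (i : α) :
    Ds (insert ∅ A) S i = Ds A S i := by
  unfold Ds
  refine filter_congr fun Y _ => not_congr ?_
  constructor
  · rintro ⟨T, hT, hiT, hTY⟩
    rw [mem_insert] at hT
    rcases hT with rfl | hT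
    · exact absurd hiT (notMem_empty i)
    · exact ⟨T, hT, hiT, hTY⟩
  · rintro ⟨T, hT, hiT, hTY⟩
    exact ⟨T, mem_insert_of_mem hT, hiT, hTY⟩

theorem strict_w {A : Finset (Finset α)} (hA : UC A) (hne : A.Nonempty)
    (hsep : ∀ x ∈ A.sup id, ∀ y ∈ A.sup id, x ≠ y → ∃ T ∈ A, ¬ (x ∈ T ↔ y ∈ T))
    (hpow : A ≠ (A.sup id).powerset) {lam : α → ℝ}
    (hlam : ∀ i ∈ A.sup id, 0 < lam i)
    (hd : ∀ i ∈ A.sup id, Alt A (A.sup id) lam i) :
    ∃ i ∈ A.sup id, A.card < 2 * (A.filter (fun T => i ∈ T)).card := by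
  by_cases h0 : ∅ ∈ A
  · exact strict_of_empty hA h0 hsep hpow hlam hd
  by_contra hcon
  have hfreq : ∀ x ∈ A.sup id, 2 * (A.filter (fun T => x ∈ T)).card ≤ A.card := by
    intro x hx
    by_contra h
    exact hcon ⟨x, hx, by omega⟩
  have hsub : ∀ T ∈ A, T ⊆ A.sup id := fun T hT => Finset.le_sup (f := id) hT
  have hlam0 : ∀ i ∈ A.sup id, 0 ≤ lam i := fun i hi => (hlam i hi).le
  have heq := eq_case hA hlam hd hfreq
  have hns : ∀ i ∈ A.sup id, {i} ∉ A := fun i hi h =>
    absurd (lt_of_singleton hA h0 h) (not_lt.mpr (hfreq i hi))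
  obtain ⟨X, hX, hmin⟩ := exists_min_image A (fun T => T.card) hne
  have hXne : X.Nonempty := by
    rw [nonempty_iff_ne_empty]
    rintro rfl
    exact h0 hX
  obtain ⟨i, hi⟩ := hXne
  have hiU := hsub X hX hi
  obtain ⟨j, hj, hji⟩ : ∃ j ∈ X, j ≠ i := by
    by_contra h
    push Not at h
    have h1 : X = {i} := by
      ext x
      rw [mem_singleton]
      exact ⟨h x, fun h => h ▸ hi⟩
    rw [h1] at hX
    exact hns i hiU hX
  have hno : ∀ W ∈ A, ¬ W ⊆ X.erase j := by
    intro W hW h
    have h1 := hmin W hW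
    have h2 := card_le_card h
    have h3 := card_erase_lt_of_mem hj
    omega
  have hli := hlam i hiU
  rcases hd i hiU with hr | ⟨hmn, hP⟩
  · -- rate one: compare with the family with the empty set added
    have hB : ∀ T ∈ insert ∅ A, ∀ T' ∈ insert ∅ A, T ∪ T' ∈ insert ∅ A := by
      intro S hS T hT
      rw [mem_insert] at hS hT ⊢
      rcases hS with rfl | hS
      · rw [empty_union]
        exact hT
      · rcases hT with rfl | hT
        · rw [union_empty]
          exact Or.inr hS
        · exact Or.inr (hA S hS T hT)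
    have h1 := gw_w (A := A) (B := insert ∅ A) (S := A.sup id) hB
      (fun T hT => by
        rw [mem_insert] at hT
        rcases hT with rfl | hT
        · exact empty_subset _
        · exact hsub T hT)
      (fun T hT _ w hw => hB T (mem_insert_of_mem hT) w hw) hlam0 hiU hr
    rw [one_mul, Bp_ins] at h1
    have h2 : (Ns A i).card + 1 ≤ (Ns (insert ∅ A) i).card := by
      have h3 : insert ∅ (Ns A i) ⊆ Ns (insert ∅ A) i := by
        intro T hT
        rw [mem_insert] at hT
        rw [mem_Ns]
        rcases hT with rfl | hT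
        · refine ⟨mem_insert_self _ _, notMem_empty i, ?_⟩
          rw [mem_insert]
          rintro (h | h)
          · exact absurd h (insert_ne_empty i ∅)
          · exact hns i hiU h
        · rw [mem_Ns] at hT
          refine ⟨mem_insert_of_mem hT.1, hT.2.1, ?_⟩
          rw [mem_insert]
          rintro (h | h)
          · exact absurd h (insert_ne_empty i T)
          · exact hT.2.2 h
      have h4 := card_le_card h3
      rwa [card_insert_of_notMem (fun h => h0 (mem_Ns.mp h).1)] at h4
    have h3 : ((Ns A i).card : ℝ) + 1 ≤ ((Ns (insert ∅ A) i).card : ℝ) := by exact_mod_cast h2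
    have h4 : ∑ e ∈ Bp A (A.sup id) i, lam e.2 * (1 / 2 : ℝ) ^ kk (insert ∅ A) e ≤
        lam i * ((Ns A i).card : ℝ) := by
      rw [(heq i hiU).2]
      refine sum_le_sum fun e he => ?_
      rw [kk_ins]
      exact mul_le_mul_of_nonneg_left (half_pow_le _) (hlam0 _ (mem_Bp.mp he).1.2)
    have h5 := mul_le_mul_of_nonneg_left h3 hli.le
    rw [mul_add, mul_one] at h5
    linarith
  · -- the members missing the point form a free set
    have hlgX : lg A (X.erase j) = ∅ := by
      unfold lg
      have h1 : A.filter (· ⊆ X.erase j) = ∅ := by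
        rw [filter_eq_empty_iff]
        intro W hW
        exact hno W hW
      rw [h1, sup_empty]
      rfl
    have hm : (X, j) ∈ Bp A (A.sup id) i := by
      rw [mem_Bp]
      refine ⟨⟨hX, hsub X hX hj⟩, hj, ?_, ?_, ?_⟩
      · exact fun h => hno _ h subset_rfl
      · exact mem_erase.mpr ⟨hji.symm, hi⟩
      · show i ∉ lg A (X.erase j)
        rw [hlgX]
        exact notMem_empty i
    have hnm : (X, j) ∉ Bq A (A.sup id) i := by
      rw [Bq, mem_filter]
      rintro ⟨-, W, hW, h⟩
      exact hno W hW h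
    have h1 := free_gw' (A := A) (B := A) hA hsub (fun M hM _ T hT => hA T hT M hM) hiU
      (D := Ns A i) subset_rfl hP
    have h2 : ∑ e ∈ Bq A (A.sup id) i, 1 / ((kk A e : ℝ) + 1) <
        ∑ e ∈ Bp A (A.sup id) i, 1 / ((kk A e : ℝ) + 1) :=
      sum_lt_sum_of_subset (Bq_sub A _ i) hm hnm (by positivity) fun e _ _ => by positivity
    have h3 := mul_lt_mul_of_pos_left (h1.trans_lt h2) hli
    have h4 : lam i * ∑ e ∈ Bp A (A.sup id) i, 1 / ((kk A e : ℝ) + 1) ≤
        ∑ e ∈ Bp A (A.sup id) i, lam e.2 * (1 / ((kk A e : ℝ) + 1)) := by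
      rw [mul_sum]
      exact sum_le_sum fun e he =>
        mul_le_mul_of_nonneg_right (hmn _ (mem_Bp.mp he).1.2) (by positivity)
    exact absurd (heq i hiU).2 (ne_of_lt (h3.trans_le h4))

end Pool.Agent.H97.T7
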